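import Pool.Agent.Helper38.SH.O1R

/-!
# Project RC, SHARP, cell engine: block O1, tables and packed columns

`O1_sum`: the block is `∑ c < nC L, XA c v * XB c v`; `lr_A`, `lr_B`: integer rows `RA`, `RB` at the scale `2 H`;
`colA_eq`, `colB_eq`: the packed columns.
-/

set_option autoImplicit false

open Finset

namespace Helper38.SH

open Helper95.SH Helper95.RC
open Helper56.RC (fc)
open Helper49.Sharp
open Pool.Agent.Helper64.SH

/-- number of functionals -/
def nC (L : ℕ) : ℕ := 2 * (L + 3) + 4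

/-- data: `H = 2^(s-1)`, `a, b` (`η`), `c0` (`- 2 H h0`), `c1` (`2 H (2 h0 - 8 - 2/3 |η|²)`), `w = pr2` -/
structure OD where
  H : ℤ
  a : ℤ
  b : ℤ
  c0 : ℤ
  c1 : ℤ
  w : ℤ

/-- the functionals -/
noncomputable def XA (P : Par) (K L c : ℕ) (v : ℕ → ℝ) : ℝ :=
  if c < L + 3 then (alA P (pV K L v) (rV K L v) (mI L c)).re
  else if c < 2 * (L + 3) then (alA P (pV K L v) (rV K L v) (mI L (c - (L + 3)))).im
  else if c = 2 * (L + 3) then (sgA P (pV K L v) (rV K L v)).re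
  else if c = 2 * (L + 3) + 1 then (sgA P (pV K L v) (rV K L v)).im
  else if c = 2 * (L + 3) + 2 then H0A P (pV K L v) (rV K L v) - P.h0
  else 2 * (H0A P (pV K L v) (rV K L v) - P.h0) + (2 * P.h0 - 8 - 2 * (‖P.eta‖ ^ 2 / 3))

noncomputable def XB (P : Par) (K L c : ℕ) (v : ℕ → ℝ) : ℝ :=
  if c < L + 3 then (alA P (pV K L v) (rV K L v) (mI L c)).re / ((mI L c + 1 : ℤ) : ℝ)
  else if c < 2 * (L + 3) then
    (alA P (pV K L v) (rV K L v) (mI L (c - (L + 3)))).im / ((mI L (c - (L + 3)) + 1 : ℤ) : ℝ)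
  else if c = 2 * (L + 3) then 2 / 3 * (sgA P (pV K L v) (rV K L v)).re
  else if c = 2 * (L + 3) + 1 then 2 / 3 * (sgA P (pV K L v) (rV K L v)).im
  else if c = 2 * (L + 3) + 2 then -P.pr2 * (H0A P (pV K L v) (rV K L v) - P.h0)
  else 1

/-- the row of `H₀` plus a constant -/
def rwK (K L : ℕ) (d : OD) (c : ℤ) : ℕ → ℤ :=
  iRow K L c (fun _ => 0) (fun _ => 0) (fun n => 2 * xR d.H d.a 0 n) (fun n => 2 * xI d.b 0 n)
    (fun n => xI d.b 0 n) (fun n => - xR d.H d.a 0 n)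

/-- the row of `H₀ - h0` -/
def rwH (K L : ℕ) (d : OD) : ℕ → ℤ := rwK K L d d.c0

/-- the integer rows -/
def RA (K L : ℕ) (d : OD) (c : ℕ) (i : ℕ) : ℤ :=
  if c < L + 3 then rwR K L d.H d.a d.b (mI L c) i
  else if c < 2 * (L + 3) then rwI K L d.H d.a d.b (mI L (c - (L + 3))) i
  else if c = 2 * (L + 3) then rwS K L d.H d.a d.b i
  else if c = 2 * (L + 3) + 1 then rwT K L d.H d.a d.b i
  else if c = 2 * (L + 3) + 2 then rwH K L d i
  else 2 * rwH K L d i + (if i = 0 then d.c1 else 0)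

def RB (K L : ℕ) (d : OD) (c : ℕ) (i : ℕ) : ℤ :=
  if c < L + 3 then rwRw K L d.H d.a d.b (mI L c) (mI L c + 1) i
  else if c < 2 * (L + 3) then rwIw K L d.H d.a d.b (mI L (c - (L + 3))) (mI L (c - (L + 3)) + 1) i
  else if c = 2 * (L + 3) then rwSw K L d.H d.a d.b i
  else if c = 2 * (L + 3) + 1 then rwTw K L d.H d.a d.b i
  else if c = 2 * (L + 3) + 2 then -d.w * rwH K L d i
  else (if i = 0 then 2 * d.H else 0)

/-- the conditions on the data -/
structure OD.Ok (d : OD) (P : Par) : Prop where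
  eta : Eta P.eta d.H d.a d.b
  a0 : fc P.a0 0 = 0
  c0 : |((2 * d.H : ℤ) : ℝ) * (-P.h0) - d.c0| ≤ 4
  c1 : |((2 * d.H : ℤ) : ℝ) * (2 * P.h0 - 8 - 2 * (‖P.eta‖ ^ 2 / 3)) - d.c1| ≤ 4
  w : P.pr2 = d.w

theorem mI_ne {L j : ℕ} (hL : Even L) : mI L j + 1 ≠ 0 := by
  obtain ⟨l, hl⟩ := hL
  unfold mI
  omega

theorem sum_nC {M : Type*} [AddCommMonoid M] (L : ℕ) (f : ℕ → M) :
    ∑ c ∈ range (nC L), f c = (∑ c ∈ range (L + 3), f c + ∑ c ∈ range (L + 3), f (L + 3 + c)) +
      (f (2 * (L + 3)) + f (2 * (L + 3) + 1) + f (2 * (L + 3) + 2) + f (2 * (L + 3) + 3)) := by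
  unfold nC
  rw [sum_range_add, show 2 * (L + 3) = (L + 3) + (L + 3) by ring, sum_range_add]
  congr 1
  simp [sum_range_succ]

/-- **the block as a sum of row pairs** -/
theorem O1_sum {P : Par} {K L N : ℕ} {d : OD} (hL : Even L) (h : L ≤ N) (ok : d.Ok P) (v : ℕ → ℝ) :
    O1F P N (pV K L v) (rV K L v) = ∑ c ∈ range (nC L), XA P K L c v * XB P K L c v := by
  rw [O1F_eq hL h (show Sup L (pV K L v) from hV_sup _ _ _) (show Sup L (rV K L v) from hV_sup _ _ _), sum_nC]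
  have A : Arr (K + L) (pV K L v) (rV K L v) (sV K v) := arrV (by omega) (by omega) v
  rw [linO_eq ok.a0 A]
  have e1 : ∀ j ∈ range (L + 3), XA P K L j v * XB P K L j v = (alA P (pV K L v) (rV K L v) (mI L j)).re *
      ((alA P (pV K L v) (rV K L v) (mI L j)).re / ((mI L j : ℤ) + 1 : ℝ)) := by
    intro j hj
    rw [mem_range] at hj
    unfold XA XB
    rw [if_pos hj, if_pos hj]
    push_cast
    rfl
  have e2 : ∀ j ∈ range (L + 3), XA P K L (L + 3 + j) v * XB P K L (L + 3 + j) v =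
      (alA P (pV K L v) (rV K L v) (mI L j)).im *
      ((alA P (pV K L v) (rV K L v) (mI L j)).im / ((mI L j : ℤ) + 1 : ℝ)) := by
    intro j hj
    rw [mem_range] at hj
    unfold XA XB
    rw [if_neg (by omega), if_pos (by omega), if_neg (by omega), if_pos (by omega),
      show L + 3 + j - (L + 3) = j by omega]
    push_cast
    rfl
  rw [sum_congr rfl e1, sum_congr rfl e2, ← sum_add_distrib]
  congr 1
  unfold XA XB
  simp only [show ¬ (2 * (L + 3) < L + 3) by omega, show ¬ (2 * (L + 3) + 1 < L + 3) by omega,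
    show ¬ (2 * (L + 3) + 2 < L + 3) by omega, show ¬ (2 * (L + 3) + 3 < L + 3) by omega,
    show ¬ (2 * (L + 3) < 2 * (L + 3)) by omega, show ¬ (2 * (L + 3) + 1 < 2 * (L + 3)) by omega,
    show ¬ (2 * (L + 3) + 2 < 2 * (L + 3)) by omega, show ¬ (2 * (L + 3) + 3 < 2 * (L + 3)) by omega,
    show ¬ (2 * (L + 3) + 1 = 2 * (L + 3)) by omega, show ¬ (2 * (L + 3) + 2 = 2 * (L + 3)) by omega,
    show ¬ (2 * (L + 3) + 3 = 2 * (L + 3)) by omega, show ¬ (2 * (L + 3) + 2 = 2 * (L + 3) + 1) by omega,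
    show ¬ (2 * (L + 3) + 3 = 2 * (L + 3) + 1) by omega, show ¬ (2 * (L + 3) + 3 = 2 * (L + 3) + 2) by omega,
    if_false, if_true]
  ring

/-- a constant row -/
theorem LRc {n : ℕ} (hn : 0 < n) {q κ e : ℝ} {c : ℤ} (hc : |q * κ - c| ≤ e) (he : 0 ≤ e) :
    LR n q (fun _ => κ) (fun j => if j = 0 then c else 0) e := by
  refine ⟨fun j => if j = 0 then κ else 0, fun v hv => ?_, fun j _ => ?_⟩
  · rw [sum_eq_single 0]
    · simp [hv]
    · intro j _ hj; simp [hj]
    · intro h; exact absurd (mem_range.2 hn) h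
  · by_cases hj : j = 0
    · simp only [hj, if_true]; exact hc
    · simp [hj, he]

/-- the row of `H₀ - h0` -/
theorem lr_H {P : Par} {K L : ℕ} {d : OD} (hK : ¬ Even K) (hL : Even L) (ok : d.Ok P) :
    LR (nt K L) ((2 * d.H : ℤ) : ℝ) (fun v => H0A P (pV K L v) (rV K L v) - P.h0) (rwH K L d) 4 := by
  refine LR.congr (lr_h hK hL ok.eta ok.a0 (k := -P.h0) ok.c0) (fun v _ => ?_) (fun i _ => rfl)
  ring

/-- the row of `H₀ + k` (first factor of the product with `e_0`) -/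
theorem lr_K {P : Par} {K L : ℕ} {d : OD} (hK : ¬ Even K) (hL : Even L) (ok : d.Ok P) {k : ℝ} {c : ℤ}
    (hc : |((2 * d.H : ℤ) : ℝ) * k - c| ≤ 4) :
    LR (nt K L) ((2 * d.H : ℤ) : ℝ) (fun v => H0A P (pV K L v) (rV K L v) + k) (rwK K L d c) 4 :=
  lr_h hK hL ok.eta ok.a0 hc

theorem lr_A {P : Par} {K L : ℕ} {d : OD} (hK : ¬ Even K) (hL : Even L) (ok : d.Ok P) (c : ℕ) :
    LR (nt K L) ((2 * d.H : ℤ) : ℝ) (XA P K L c) (RA K L d c) 12 := by
  by_cases h1 : c < L + 3
  · have e : XA P K L c = fun v => (alA P (pV K L v) (rV K L v) (mI L c)).re := by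
      funext v; unfold XA; rw [if_pos h1]
    have e' : RA K L d c = rwR K L d.H d.a d.b (mI L c) := by funext i; unfold RA; rw [if_pos h1]
    rw [e, e']
    exact (lr_re hK hL ok.eta _).mono (by norm_num)
  by_cases h2 : c < 2 * (L + 3)
  · have e : XA P K L c = fun v => (alA P (pV K L v) (rV K L v) (mI L (c - (L + 3)))).im := by
      funext v; unfold XA; rw [if_neg h1, if_pos h2]
    have e' : RA K L d c = rwI K L d.H d.a d.b (mI L (c - (L + 3))) := by
      funext i; unfold RA; rw [if_neg h1, if_pos h2]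
    rw [e, e']
    exact (lr_im hK hL ok.eta _).mono (by norm_num)
  by_cases h3 : c = 2 * (L + 3)
  · have e : XA P K L c = fun v => (sgA P (pV K L v) (rV K L v)).re := by
      funext v; unfold XA; rw [if_neg h1, if_neg h2, if_pos h3]
    have e' : RA K L d c = rwS K L d.H d.a d.b := by funext i; unfold RA; rw [if_neg h1, if_neg h2, if_pos h3]
    rw [e, e']
    exact (lr_s hK hL ok.eta).mono (by norm_num)
  by_cases h4 : c = 2 * (L + 3) + 1
  · have e : XA P K L c = fun v => (sgA P (pV K L v) (rV K L v)).im := by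
      funext v; unfold XA; rw [if_neg h1, if_neg h2, if_neg h3, if_pos h4]
    have e' : RA K L d c = rwT K L d.H d.a d.b := by
      funext i; unfold RA; rw [if_neg h1, if_neg h2, if_neg h3, if_pos h4]
    rw [e, e']
    exact (lr_t hK hL ok.eta).mono (by norm_num)
  by_cases h5 : c = 2 * (L + 3) + 2
  · have e : XA P K L c = fun v => H0A P (pV K L v) (rV K L v) - P.h0 := by
      funext v; unfold XA; rw [if_neg h1, if_neg h2, if_neg h3, if_neg h4, if_pos h5]
    have e' : RA K L d c = rwH K L d := by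
      funext i; unfold RA; rw [if_neg h1, if_neg h2, if_neg h3, if_neg h4, if_pos h5]
    rw [e, e']
    exact (lr_H hK hL ok).mono (by norm_num)
  · have e : XA P K L c = fun v => 2 * (H0A P (pV K L v) (rV K L v) - P.h0) +
        (2 * P.h0 - 8 - 2 * (‖P.eta‖ ^ 2 / 3)) := by
      funext v; unfold XA; rw [if_neg h1, if_neg h2, if_neg h3, if_neg h4, if_neg h5]
    have e' : RA K L d c = fun i => 2 * rwH K L d i + (if i = 0 then d.c1 else 0) := by
      funext i; unfold RA; rw [if_neg h1, if_neg h2, if_neg h3, if_neg h4, if_neg h5]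
    rw [e, e']
    have n0 : 0 < nt K L := by unfold nt bp; omega
    have := ((lr_H hK hL ok).smul 2).add (LRc n0 ok.c1 (by norm_num))
    refine (LR.congr this (fun v _ => ?_) (fun i _ => rfl)).mono (by norm_num)
    push_cast
    rfl

theorem lr_B {P : Par} {K L : ℕ} {d : OD} (hK : ¬ Even K) (hL : Even L) (ok : d.Ok P) {e : ℝ} (he : 12 ≤ e)
    (hw : |(d.w : ℝ)| * 4 ≤ e) (c : ℕ) :
    LR (nt K L) ((2 * d.H : ℤ) : ℝ) (XB P K L c) (RB K L d c) e := by
  by_cases h1 : c < L + 3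
  · have e1 : XB P K L c = fun v => (alA P (pV K L v) (rV K L v) (mI L c)).re / ((mI L c + 1 : ℤ) : ℝ) := by
      funext v; unfold XB; rw [if_pos h1]
    have e' : RB K L d c = rwRw K L d.H d.a d.b (mI L c) (mI L c + 1) := by funext i; unfold RB; rw [if_pos h1]
    rw [e1, e']
    exact (lr_rew hK hL ok.eta _ _ (mI_ne hL)).mono (by linarith)
  by_cases h2 : c < 2 * (L + 3)
  · have e1 : XB P K L c = fun v => (alA P (pV K L v) (rV K L v) (mI L (c - (L + 3)))).im /
        ((mI L (c - (L + 3)) + 1 : ℤ) : ℝ) := by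
      funext v; unfold XB; rw [if_neg h1, if_pos h2]
    have e' : RB K L d c = rwIw K L d.H d.a d.b (mI L (c - (L + 3))) (mI L (c - (L + 3)) + 1) := by
      funext i; unfold RB; rw [if_neg h1, if_pos h2]
    rw [e1, e']
    exact (lr_imw hK hL ok.eta _ _ (mI_ne hL)).mono (by linarith)
  by_cases h3 : c = 2 * (L + 3)
  · have e1 : XB P K L c = fun v => 2 / 3 * (sgA P (pV K L v) (rV K L v)).re := by
      funext v; unfold XB; rw [if_neg h1, if_neg h2, if_pos h3]
    have e' : RB K L d c = rwSw K L d.H d.a d.b := by funext i; unfold RB; rw [if_neg h1, if_neg h2, if_pos h3]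
    rw [e1, e']
    exact (lr_sw hK hL ok.eta).mono he
  by_cases h4 : c = 2 * (L + 3) + 1
  · have e1 : XB P K L c = fun v => 2 / 3 * (sgA P (pV K L v) (rV K L v)).im := by
      funext v; unfold XB; rw [if_neg h1, if_neg h2, if_neg h3, if_pos h4]
    have e' : RB K L d c = rwTw K L d.H d.a d.b := by
      funext i; unfold RB; rw [if_neg h1, if_neg h2, if_neg h3, if_pos h4]
    rw [e1, e']
    exact (lr_tw hK hL ok.eta).mono he
  by_cases h5 : c = 2 * (L + 3) + 2
  · have e1 : XB P K L c = fun v => -P.pr2 * (H0A P (pV K L v) (rV K L v) - P.h0) := by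
      funext v; unfold XB; rw [if_neg h1, if_neg h2, if_neg h3, if_neg h4, if_pos h5]
    have e' : RB K L d c = fun i => -d.w * rwH K L d i := by
      funext i; unfold RB; rw [if_neg h1, if_neg h2, if_neg h3, if_neg h4, if_pos h5]
    rw [e1, e']
    have := (lr_H hK hL ok).smul (-d.w)
    refine (LR.congr this (fun v _ => ?_) (fun i _ => rfl)).mono ?_
    · rw [ok.w]; push_cast; rfl
    · push_cast
      rw [abs_neg]
      exact hw
  · have e1 : XB P K L c = fun _ => (1 : ℝ) := by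
      funext v; unfold XB; rw [if_neg h1, if_neg h2, if_neg h3, if_neg h4, if_neg h5]
    have e' : RB K L d c = fun i => if i = 0 then 2 * d.H else 0 := by
      funext i; unfold RB; rw [if_neg h1, if_neg h2, if_neg h3, if_neg h4, if_neg h5]
    rw [e1, e']
    exact LRc (by unfold nt bp; omega) (by simp; linarith) (by linarith)

/-! ### packed columns -/

/-- `B ^ k`, `B = 2 ^ (q + 1)` -/
def pw (q k : ℕ) : ℤ := Int.ofNat (Nat.pow 2 (Nat.mul (Nat.succ q) k))

theorem pw_eq (q k : ℕ) : pw q k = ((2 : ℤ) ^ (q + 1)) ^ k := by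
  show ((2 ^ ((q + 1) * k) : ℕ) : ℤ) = _
  push_cast
  rw [pow_mul]

/-- three neighbouring digits -/
def pk (q : ℕ) (L : ℕ) (f : ℤ → ℤ) (n : ℤ) : ℤ :=
  pw q ((n + L) / 2).toNat * (f (n - 2) + pw q 1 * f n + pw q 2 * f (n + 2))

theorem pk_eq (q : ℕ) {L : ℕ} (hL : Even L) (f : ℤ → ℤ) {n : ℤ} (hn : Even n) (h1 : -(L : ℤ) ≤ n) (h2 : n ≤ L)
    (hf : ∀ m, m ≠ n - 2 → m ≠ n → m ≠ n + 2 → f m = 0) :
    ∑ c ∈ range (L + 3), f (mI L c) * pw q c = pk q L f n := by
  have h3 := pw_eq q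
  set B : ℤ := (2 : ℤ) ^ (q + 1) with hB
  simp only [h3]
  obtain ⟨l, hl⟩ := hL
  obtain ⟨a, ha⟩ := hn
  obtain ⟨k, hk⟩ : ∃ k : ℕ, (n + L) / 2 = k := ⟨((n + L) / 2).toNat, by omega⟩
  have hk2 : n + L = 2 * (k : ℤ) := by omega
  have e : pk q L f n = B ^ k * (f (n - 2) + B * (f n + B * f (n + 2))) := by
    unfold pk
    rw [hk, Int.toNat_natCast, h3, h3, h3]
    ring
  rw [e]
  have s : ∑ c ∈ range (L + 3), f (mI L c) * B ^ c = ∑ c ∈ ({k, k + 1, k + 2} : Finset ℕ), f (mI L c) * B ^ c := by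
    symm
    refine sum_subset ?_ ?_
    · intro c hc
      simp only [mem_insert, mem_singleton] at hc
      rw [mem_range]
      omega
    · intro c _ hc
      simp only [mem_insert, mem_singleton, not_or] at hc
      rw [hf, zero_mul]
      · unfold mI; omega
      · unfold mI; omega
      · unfold mI; omega
  rw [s, sum_insert (by simp), sum_insert (by simp), sum_singleton]
  have m0 : mI L k = n - 2 := by unfold mI; omega
  have m1 : mI L (k + 1) = n := by unfold mI; push_cast; omega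
  have m2 : mI L (k + 2) = n + 2 := by unfold mI; push_cast; omega
  rw [m0, m1, m2]
  ring

/-- the packed rows of a family of `iRow`s -/
theorem iRow_sum {K L : ℕ} (hL : Even L) (S : Finset ℕ) (x : ℕ → ℤ) {c0 : ℕ → ℤ} {PR PI RR RI : ℕ → ℤ → ℤ}
    {C0 : ℤ} {QR QI TR TI : ℤ → ℤ} (h0 : ∑ c ∈ S, c0 c * x c = C0)
    (h1 : ∀ n, Even n → -(L : ℤ) ≤ n → n ≤ L → ∑ c ∈ S, PR c n * x c = QR n)
    (h2 : ∀ n, Even n → -(L : ℤ) ≤ n → n ≤ L → ∑ c ∈ S, PI c n * x c = QI n)
    (h3 : ∀ n, Even n → -(L : ℤ) ≤ n → n ≤ L → ∑ c ∈ S, RR c n * x c = TR n)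
    (h4 : ∀ n, Even n → -(L : ℤ) ≤ n → n ≤ L → ∑ c ∈ S, RI c n * x c = TI n) {i : ℕ} (hi : i < nt K L) :
    ∑ c ∈ S, iRow K L (c0 c) (fun _ => 0) (fun _ => 0) (PR c) (PI c) (RR c) (RI c) i * x c =
      iRow K L C0 (fun _ => 0) (fun _ => 0) QR QI TR TI i := by
  obtain ⟨l, hl⟩ := hL
  have key : ∀ (A B : ℕ → ℤ → ℤ) (A' B' : ℤ → ℤ),
      (∀ n, Even n → -(L : ℤ) ≤ n → n ≤ L → ∑ c ∈ S, A c n * x c = A' n) →
      (∀ n, Even n → -(L : ℤ) ≤ n → n ≤ L → ∑ c ∈ S, B c n * x c = B' n) → ∀ j : ℕ, j ≤ L →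
      ∑ c ∈ S, ihr (A c) (B c) j * x c = ihr A' B' j := by
    intro A B A' B' hA hB j hj
    unfold ihr
    by_cases j0 : j = 0
    · simp only [j0, if_true]
      exact hA 0 Even.zero (by omega) (by omega)
    by_cases j1 : j % 2 = 1
    · simp only [j0, j1, if_true, if_false, add_mul, sum_add_distrib]
      rw [hA _ ⟨((j : ℤ) + 1) / 2, by omega⟩ (by omega) (by omega),
        hA _ ⟨-(((j : ℤ) + 1) / 2), by omega⟩ (by omega) (by omega)]
    · simp only [j0, j1, if_false, sub_mul, sum_sub_distrib]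
      rw [hB _ ⟨(j : ℤ) / 2, by omega⟩ (by omega) (by omega),
        hB _ ⟨-((j : ℤ) / 2), by omega⟩ (by omega) (by omega)]
  unfold iRow
  by_cases i0 : i = 0
  · simp only [i0, if_true]; exact h0
  by_cases i1 : i < bp K
  · simp only [i0, i1, if_true, if_false, ite_self, zero_mul, sum_const_zero]
  by_cases i2 : i < br K L
  · simp only [i0, i1, i2, if_true, if_false]
    refine key PR PI QR QI h1 h2 _ ?_
    unfold br at i2
    omega
  · simp only [i0, i1, i2, if_false]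
    refine key RR RI TR TI h3 h4 _ ?_
    unfold nt at hi
    unfold br at i2 ⊢
    omega

theorem xR_zero {H a m n : ℤ} (h1 : m ≠ n - 2) (h2 : m ≠ n) (h3 : m ≠ n + 2) : xR H a m n = 0 := by
  unfold xR; rw [if_neg h2, if_neg h3, if_neg h1]
theorem xI_zero {b m n : ℤ} (h1 : m ≠ n - 2) (h2 : m ≠ n) (h3 : m ≠ n + 2) : xI b m n = 0 := by
  unfold xI; rw [if_neg h2, if_neg h3, if_neg h1]

/-- packed parts -/
def qRe (q K L : ℕ) (d : OD) (i : ℕ) : ℤ :=
  iRow K L 0 (fun _ => 0) (fun _ => 0) (pkf fun m n => 2 * xR d.H d.a m n) (pkf fun m n => 2 * xI d.b m n)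
    (pkf fun m n => xI d.b m n) (pkf fun m n => - xR d.H d.a m n) i
where pkf (f : ℤ → ℤ → ℤ) (n : ℤ) : ℤ := pk q L (fun m => f m n) n

def qIm (q K L : ℕ) (d : OD) (i : ℕ) : ℤ :=
  iRow K L 0 (fun _ => 0) (fun _ => 0) (qRe.pkf q L fun m n => -(2 * xI d.b m n))
    (qRe.pkf q L fun m n => 2 * xR d.H d.a m n)
    (qRe.pkf q L fun m n => xR d.H d.a m n) (qRe.pkf q L fun m n => xI d.b m n) i

def qRw (q K L : ℕ) (d : OD) (i : ℕ) : ℤ :=
  iRow K L 0 (fun _ => 0) (fun _ => 0) (qRe.pkf q L fun m n => 2 * xR d.H d.a m n / (m + 1))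
    (qRe.pkf q L fun m n => 2 * xI d.b m n / (m + 1))
    (qRe.pkf q L fun m n => xI d.b m n / (m + 1)) (qRe.pkf q L fun m n => - xR d.H d.a m n / (m + 1)) i

def qIw (q K L : ℕ) (d : OD) (i : ℕ) : ℤ :=
  iRow K L 0 (fun _ => 0) (fun _ => 0) (qRe.pkf q L fun m n => -(2 * xI d.b m n) / (m + 1))
    (qRe.pkf q L fun m n => 2 * xR d.H d.a m n / (m + 1))
    (qRe.pkf q L fun m n => xR d.H d.a m n / (m + 1)) (qRe.pkf q L fun m n => xI d.b m n / (m + 1)) i

/-- THE PACKED COLUMNS -/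
def colA (q K L : ℕ) (d : OD) (i : ℕ) : ℤ :=
  (qRe q K L d i + pw q (L + 3) * qIm q K L d i) +
    (pw q (2 * (L + 3)) * rwS K L d.H d.a d.b i + pw q (2 * (L + 3) + 1) * rwT K L d.H d.a d.b i
      + pw q (2 * (L + 3) + 2) * rwH K L d i
      + pw q (2 * (L + 3) + 3) * (2 * rwH K L d i + (if i = 0 then d.c1 else 0)))

def colB (q K L : ℕ) (d : OD) (i : ℕ) : ℤ :=
  (qRw q K L d i + pw q (L + 3) * qIw q K L d i) +
    (pw q (2 * (L + 3)) * rwSw K L d.H d.a d.b i + pw q (2 * (L + 3) + 1) * rwTw K L d.H d.a d.b i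
      + pw q (2 * (L + 3) + 2) * (-d.w * rwH K L d i)
      + pw q (2 * (L + 3) + 3) * (if i = 0 then 2 * d.H else 0))

theorem pw_add (q j k : ℕ) : pw q (j + k) = pw q j * pw q k := by
  rw [pw_eq, pw_eq, pw_eq, pow_add]

theorem sum_pk (q : ℕ) {L : ℕ} (hL : Even L) (f : ℤ → ℤ → ℤ)
    (hf : ∀ m n, m ≠ n - 2 → m ≠ n → m ≠ n + 2 → f m n = 0) (n : ℤ) (hn : Even n) (h1 : -(L : ℤ) ≤ n) (h2 : n ≤ L) :
    ∑ c ∈ range (L + 3), f (mI L c) n * pw q c = qRe.pkf q L f n :=
  pk_eq q hL (fun m => f m n) hn h1 h2 fun m a b c => hf m n a b c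

theorem qRe_eq (q : ℕ) {K L : ℕ} (hL : Even L) (d : OD) {i : ℕ} (hi : i < nt K L) :
    ∑ c ∈ range (L + 3), rwR K L d.H d.a d.b (mI L c) i * pw q c = qRe q K L d i :=
  iRow_sum hL _ _ (c0 := fun _ => 0) (by simp)
    (sum_pk q hL (fun m n => 2 * xR d.H d.a m n) fun m n a b c => by rw [xR_zero a b c, mul_zero])
    (sum_pk q hL (fun m n => 2 * xI d.b m n) fun m n a b c => by rw [xI_zero a b c, mul_zero])
    (sum_pk q hL (fun m n => xI d.b m n) fun m n a b c => xI_zero a b c)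
    (sum_pk q hL (fun m n => - xR d.H d.a m n) fun m n a b c => by rw [xR_zero a b c, neg_zero]) hi

theorem qIm_eq (q : ℕ) {K L : ℕ} (hL : Even L) (d : OD) {i : ℕ} (hi : i < nt K L) :
    ∑ c ∈ range (L + 3), rwI K L d.H d.a d.b (mI L c) i * pw q c = qIm q K L d i :=
  iRow_sum hL _ _ (c0 := fun _ => 0) (by simp)
    (sum_pk q hL (fun m n => -(2 * xI d.b m n)) fun m n a b c => by rw [xI_zero a b c, mul_zero, neg_zero])
    (sum_pk q hL (fun m n => 2 * xR d.H d.a m n) fun m n a b c => by rw [xR_zero a b c, mul_zero])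
    (sum_pk q hL (fun m n => xR d.H d.a m n) fun m n a b c => xR_zero a b c)
    (sum_pk q hL (fun m n => xI d.b m n) fun m n a b c => xI_zero a b c) hi

theorem qRw_eq (q : ℕ) {K L : ℕ} (hL : Even L) (d : OD) {i : ℕ} (hi : i < nt K L) :
    ∑ c ∈ range (L + 3), rwRw K L d.H d.a d.b (mI L c) (mI L c + 1) i * pw q c = qRw q K L d i :=
  iRow_sum hL _ _ (c0 := fun _ => 0) (by simp)
    (sum_pk q hL (fun m n => 2 * xR d.H d.a m n / (m + 1)) fun m n a b c => by rw [xR_zero a b c, mul_zero, Int.zero_ediv])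
    (sum_pk q hL (fun m n => 2 * xI d.b m n / (m + 1)) fun m n a b c => by rw [xI_zero a b c, mul_zero, Int.zero_ediv])
    (sum_pk q hL (fun m n => xI d.b m n / (m + 1)) fun m n a b c => by rw [xI_zero a b c, Int.zero_ediv])
    (sum_pk q hL (fun m n => - xR d.H d.a m n / (m + 1)) fun m n a b c => by rw [xR_zero a b c, neg_zero, Int.zero_ediv])
    hi

theorem qIw_eq (q : ℕ) {K L : ℕ} (hL : Even L) (d : OD) {i : ℕ} (hi : i < nt K L) :
    ∑ c ∈ range (L + 3), rwIw K L d.H d.a d.b (mI L c) (mI L c + 1) i * pw q c = qIw q K L d i :=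
  iRow_sum hL _ _ (c0 := fun _ => 0) (by simp)
    (sum_pk q hL (fun m n => -(2 * xI d.b m n) / (m + 1)) fun m n a b c => by
      rw [xI_zero a b c, mul_zero, neg_zero, Int.zero_ediv])
    (sum_pk q hL (fun m n => 2 * xR d.H d.a m n / (m + 1)) fun m n a b c => by rw [xR_zero a b c, mul_zero, Int.zero_ediv])
    (sum_pk q hL (fun m n => xR d.H d.a m n / (m + 1)) fun m n a b c => by rw [xR_zero a b c, Int.zero_ediv])
    (sum_pk q hL (fun m n => xI d.b m n / (m + 1)) fun m n a b c => by rw [xI_zero a b c, Int.zero_ediv]) hi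

theorem colA_eq (q : ℕ) {K L : ℕ} (hL : Even L) (d : OD) {i : ℕ} (hi : i < nt K L) :
    ∑ c ∈ range (nC L), RA K L d c i * pw q c = colA q K L d i := by
  rw [sum_nC]
  unfold colA
  congr 1
  · rw [← qRe_eq q hL d hi, ← qIm_eq q hL d hi, mul_sum]
    congr 1
    · refine sum_congr rfl fun c hc => ?_
      rw [mem_range] at hc
      unfold RA
      rw [if_pos hc]
    · refine sum_congr rfl fun c hc => ?_
      rw [mem_range] at hc
      unfold RA
      rw [if_neg (by omega), if_pos (by omega), show L + 3 + c - (L + 3) = c by omega, pw_add]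
      ring
  · unfold RA
    simp only [show ¬ (2 * (L + 3) < L + 3) by omega, show ¬ (2 * (L + 3) + 1 < L + 3) by omega,
      show ¬ (2 * (L + 3) + 2 < L + 3) by omega, show ¬ (2 * (L + 3) + 3 < L + 3) by omega,
      show ¬ (2 * (L + 3) < 2 * (L + 3)) by omega, show ¬ (2 * (L + 3) + 1 < 2 * (L + 3)) by omega,
      show ¬ (2 * (L + 3) + 2 < 2 * (L + 3)) by omega, show ¬ (2 * (L + 3) + 3 < 2 * (L + 3)) by omega,
      show ¬ (2 * (L + 3) + 1 = 2 * (L + 3)) by omega, show ¬ (2 * (L + 3) + 2 = 2 * (L + 3)) by omega,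
      show ¬ (2 * (L + 3) + 3 = 2 * (L + 3)) by omega, show ¬ (2 * (L + 3) + 2 = 2 * (L + 3) + 1) by omega,
      show ¬ (2 * (L + 3) + 3 = 2 * (L + 3) + 1) by omega, show ¬ (2 * (L + 3) + 3 = 2 * (L + 3) + 2) by omega,
      if_false, if_true]
    ring

theorem colB_eq (q : ℕ) {K L : ℕ} (hL : Even L) (d : OD) {i : ℕ} (hi : i < nt K L) :
    ∑ c ∈ range (nC L), RB K L d c i * pw q c = colB q K L d i := by
  rw [sum_nC]
  unfold colB
  congr 1
  · rw [← qRw_eq q hL d hi, ← qIw_eq q hL d hi, mul_sum]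
    congr 1
    · refine sum_congr rfl fun c hc => ?_
      rw [mem_range] at hc
      unfold RB
      rw [if_pos hc]
    · refine sum_congr rfl fun c hc => ?_
      rw [mem_range] at hc
      unfold RB
      rw [if_neg (by omega), if_pos (by omega), show L + 3 + c - (L + 3) = c by omega, pw_add]
      ring
  · unfold RB
    simp only [show ¬ (2 * (L + 3) < L + 3) by omega, show ¬ (2 * (L + 3) + 1 < L + 3) by omega,
      show ¬ (2 * (L + 3) + 2 < L + 3) by omega, show ¬ (2 * (L + 3) + 3 < L + 3) by omega,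
      show ¬ (2 * (L + 3) < 2 * (L + 3)) by omega, show ¬ (2 * (L + 3) + 1 < 2 * (L + 3)) by omega,
      show ¬ (2 * (L + 3) + 2 < 2 * (L + 3)) by omega, show ¬ (2 * (L + 3) + 3 < 2 * (L + 3)) by omega,
      show ¬ (2 * (L + 3) + 1 = 2 * (L + 3)) by omega, show ¬ (2 * (L + 3) + 2 = 2 * (L + 3)) by omega,
      show ¬ (2 * (L + 3) + 3 = 2 * (L + 3)) by omega, show ¬ (2 * (L + 3) + 2 = 2 * (L + 3) + 1) by omega,
      show ¬ (2 * (L + 3) + 3 = 2 * (L + 3) + 1) by omega, show ¬ (2 * (L + 3) + 3 = 2 * (L + 3) + 2) by omega,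
      if_false, if_true]
    ring

end Helper38.SH
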