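import Pool.Agent.Helper38.SH.O1F
import Pool.Agent.Helper49.RC.CellR
import Pool.Agent.Helper71.SH.LBlk

/-!
# Project RC, SHARP, cell engine: block O1 of a record, packed columns in the format of the matrix check
-/

set_option autoImplicit false

open Finset

namespace Helper38.SH

open Helper95.SH Helper95.RC
open Helper56.RC (fc)
open Helper49.Sharp
open Helper49.Cell
open Helper54.RC.Fast (on of)
open Helper25.SH.Mat (dg row)
open Pool.Agent.Helper64.SH

/-! ### digits of a packed integer -/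

/-- the natural number with the digits `R c + 2 ^ b` -/
theorem dg_of {b : ℕ} {R : ℕ → ℤ} (C : ℕ) (hR : ∀ c < C, |R c| < 2 ^ b) {X : ℕ}
    (hX : (X : ℤ) = ∑ c ∈ range C, (R c + 2 ^ b) * pw b c) {k : ℕ} (hk : k < C) : dg b X k = R k := by
  induction C generalizing R X k with
  | zero => omega
  | succ C ih =>
    have e0 : pw b 0 = 1 := by rw [pw_eq]; ring
    have hB : (2 : ℤ) ^ (b + 1) = 2 * 2 ^ b := by rw [pow_succ]; ring
    have e1 : ∀ c, pw b (c + 1) = 2 ^ (b + 1) * pw b c := by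
      intro c
      rw [pw_eq, pw_eq, pow_succ]; ring
    rw [sum_range_succ', e0, mul_one] at hX
    have h0 := hR 0 (Nat.succ_pos C)
    rw [abs_lt] at h0
    set r0 : ℕ := (R 0 + 2 ^ b).toNat with hr0
    have hr0' : (r0 : ℤ) = R 0 + 2 ^ b := Int.toNat_of_nonneg (by linarith)
    have hY0 : 0 ≤ ∑ c ∈ range C, (R (c + 1) + 2 ^ b) * pw b c := by
      refine sum_nonneg fun c hc => mul_nonneg ?_ ?_
      · have := hR (c + 1) (by rw [mem_range] at hc; omega)
        rw [abs_lt] at this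
        linarith
      · rw [pw_eq]; positivity
    obtain ⟨Y, hY⟩ := Int.eq_ofNat_of_zero_le hY0
    have hXY : X = r0 + 2 ^ (b + 1) * Y := by
      have : (X : ℤ) = r0 + 2 ^ (b + 1) * Y := by
        rw [hX, hr0', ← hY, mul_sum]
        rw [sum_congr rfl fun c _ => by rw [e1 c, mul_left_comm]]
        ring
      exact_mod_cast this
    have hr0lt : r0 < 2 ^ (b + 1) := by
      have : (r0 : ℤ) < 2 ^ (b + 1) := by rw [hr0', hB]; linarith
      exact_mod_cast this
    cases k with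
    | zero =>
      unfold dg
      rw [pow_zero, Nat.div_one, hXY, Nat.add_mul_mod_self_left, Nat.mod_eq_of_lt hr0lt, hr0']
      push_cast
      ring
    | succ k =>
      have hd : dg b X (k + 1) = dg b Y k := by
        unfold dg
        have : X / (2 ^ (b + 1)) ^ (k + 1) = Y / (2 ^ (b + 1)) ^ k := by
          rw [pow_succ', ← Nat.div_div_eq_div_mul, hXY, Nat.add_mul_div_left _ _ (by positivity),
            Nat.div_eq_of_lt hr0lt, zero_add]
        rw [this]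
      rw [hd]
      exact ih (R := fun c => R (c + 1)) (fun c hc => hR (c + 1) (by omega)) hY.symm (by omega)

/-! ### bounds of the rows -/

theorem xR_le {H a M m n : ℤ} (h1 : |H| ≤ M) (h2 : |a| ≤ M) : |xR H a m n| ≤ M := by
  have : 0 ≤ M := (abs_nonneg _).trans h1
  unfold xR
  split_ifs
  · exact h1
  · exact h2
  · exact h2
  · simpa using this

theorem xI_le {b M m n : ℤ} (h1 : |b| ≤ M) : |xI b m n| ≤ M := by
  have : 0 ≤ M := (abs_nonneg _).trans h1
  unfold xI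
  split_ifs
  · simpa using this
  · rw [abs_neg]; exact h1
  · exact h1
  · simpa using this

theorem ediv_le {x w M : ℤ} (h : |x| ≤ M) : |x / w| ≤ M := by
  have h1 := Int.natAbs_ediv_le_natAbs x w
  have h2 : |x / w| ≤ |x| := by
    rw [Int.abs_eq_natAbs, Int.abs_eq_natAbs]
    exact_mod_cast h1
  exact h2.trans h

theorem iRow_le {K L : ℕ} {c M : ℤ} {PR PI RR RI : ℤ → ℤ} (hM : 0 ≤ M) (h1 : ∀ n, |PR n| ≤ M) (h2 : ∀ n, |PI n| ≤ M)
    (h3 : ∀ n, |RR n| ≤ M) (h4 : ∀ n, |RI n| ≤ M) (i : ℕ) :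
    |iRow K L c (fun _ => 0) (fun _ => 0) PR PI RR RI i| ≤ 2 * M + |c| := by
  have key : ∀ (A B : ℤ → ℤ), (∀ n, |A n| ≤ M) → (∀ n, |B n| ≤ M) → ∀ j, |ihr A B j| ≤ 2 * M := by
    intro A B hA hB j
    unfold ihr
    split_ifs
    · have := hA 0; linarith
    · refine (abs_add_le _ _).trans ?_
      have a1 := hA ((j : ℤ) + 1)
      have a2 := hA (-((j : ℤ) + 1))
      linarith
    · refine (abs_sub _ _).trans ?_
      have a1 := hB (j : ℤ)
      have a2 := hB (-(j : ℤ))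
      linarith
  have hc := abs_nonneg c
  unfold iRow
  split_ifs
  · linarith
  · simp; linarith
  · simp; linarith
  · exact (key _ _ h1 h2 _).trans (by linarith)
  · exact (key _ _ h3 h4 _).trans (by linarith)

/-- bounds of the data -/
structure Bd (d : OD) (M : ℤ) : Prop where
  H : 0 ≤ d.H
  a : |d.a| ≤ d.H
  b : |d.b| ≤ d.H
  A : 8 * d.H + 2 * |d.c0| + |d.c1| ≤ M
  B : 8 * d.H + |d.w| * (4 * d.H + |d.c0|) ≤ M

theorem rwK_le {d : OD} {M : ℤ} (h : Bd d M) (K L : ℕ) (c : ℤ) (i : ℕ) : |rwK K L d c i| ≤ 4 * d.H + |c| := by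
  have hH := h.H
  have h1 : |d.H| ≤ d.H := by rw [abs_of_nonneg hH]
  refine (iRow_le (M := 2 * d.H) (by linarith) ?_ ?_ ?_ ?_ i).trans (by linarith)
  · intro n; rw [abs_mul]; have := xR_le (m := 0) (n := n) h1 h.a; simpa using this
  · intro n; rw [abs_mul]; have := xI_le (m := 0) (n := n) h.b; simpa using this
  · intro n; have := xI_le (m := 0) (n := n) h.b; linarith
  · intro n; rw [abs_neg]; have := xR_le (m := 0) (n := n) h1 h.a; linarith

theorem RA_le {d : OD} {M : ℤ} (h : Bd d M) (K L c i : ℕ) : |RA K L d c i| ≤ M := by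
  have hH := h.H
  have h1 : |d.H| ≤ d.H := by rw [abs_of_nonneg hH]
  have c0 := abs_nonneg d.c0
  have c1 := abs_nonneg d.c1
  have hA := h.A
  have x1 : ∀ m n, |2 * xR d.H d.a m n| ≤ 2 * d.H := fun m n => by
    rw [abs_mul]; have := xR_le (m := m) (n := n) h1 h.a; simpa using this
  have x2 : ∀ m n, |2 * xI d.b m n| ≤ 2 * d.H := fun m n => by
    rw [abs_mul]; have := xI_le (m := m) (n := n) h.b; simpa using this
  have x3 : ∀ m n, |xR d.H d.a m n| ≤ 2 * d.H := fun m n => by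
    have := xR_le (m := m) (n := n) h1 h.a; linarith
  have x4 : ∀ m n, |xI d.b m n| ≤ 2 * d.H := fun m n => by
    have := xI_le (m := m) (n := n) h.b; linarith
  have x5 : ∀ m n, |-(2 * xR d.H d.a m n)| ≤ 2 * d.H := fun m n => by rw [abs_neg]; exact x1 m n
  have x6 : ∀ m n, |-(2 * xI d.b m n)| ≤ 2 * d.H := fun m n => by rw [abs_neg]; exact x2 m n
  have x7 : ∀ m n, |-xR d.H d.a m n| ≤ 2 * d.H := fun m n => by rw [abs_neg]; exact x3 m n
  have hH2 : 0 ≤ 2 * d.H := by linarith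
  unfold RA
  split_ifs
  · exact (iRow_le hH2 (x1 _) (x2 _) (x4 _) (x7 _) i).trans (by rw [abs_zero]; linarith)
  · exact (iRow_le hH2 (x6 _) (x1 _) (x3 _) (x4 _) i).trans (by rw [abs_zero]; linarith)
  · exact (iRow_le hH2 (x1 _) (x2 _) (x6 _) (x1 _) i).trans (by rw [abs_zero]; linarith)
  · exact (iRow_le hH2 (x6 _) (x1 _) (x5 _) (x6 _) i).trans (by rw [abs_zero]; linarith)
  · exact (rwK_le h K L _ i).trans (by linarith)
  · refine (abs_add_le _ _).trans ?_
    have := rwK_le h K L d.c0 i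
    rw [abs_mul]
    unfold rwH
    norm_num
    linarith
  · refine (abs_add_le _ _).trans ?_
    have := rwK_le h K L d.c0 i
    rw [abs_mul]
    unfold rwH
    norm_num
    linarith

theorem RB_le {d : OD} {M : ℤ} (h : Bd d M) (K L c i : ℕ) : |RB K L d c i| ≤ M := by
  have hH := h.H
  have h1 : |d.H| ≤ d.H := by rw [abs_of_nonneg hH]
  have hw := abs_nonneg d.w
  have c0 := abs_nonneg d.c0
  have hB := h.B
  have hp : 0 ≤ |d.w| * (4 * d.H + |d.c0|) := mul_nonneg hw (by linarith)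
  have x1 : ∀ m n, |2 * xR d.H d.a m n| ≤ 2 * d.H := fun m n => by
    rw [abs_mul]; have := xR_le (m := m) (n := n) h1 h.a; simpa using this
  have x2 : ∀ m n, |2 * xI d.b m n| ≤ 2 * d.H := fun m n => by
    rw [abs_mul]; have := xI_le (m := m) (n := n) h.b; simpa using this
  have x3 : ∀ m n, |xR d.H d.a m n| ≤ 2 * d.H := fun m n => by
    have := xR_le (m := m) (n := n) h1 h.a; linarith
  have x4 : ∀ m n, |xI d.b m n| ≤ 2 * d.H := fun m n => by
    have := xI_le (m := m) (n := n) h.b; linarith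
  have x6 : ∀ m n, |-(2 * xI d.b m n)| ≤ 2 * d.H := fun m n => by rw [abs_neg]; exact x2 m n
  have x7 : ∀ m n, |-xR d.H d.a m n| ≤ 2 * d.H := fun m n => by rw [abs_neg]; exact x3 m n
  have y1 : ∀ m n, |2 * (2 * xR d.H d.a m n)| ≤ 4 * d.H := fun m n => by
    have := x1 m n
    rw [abs_le] at this ⊢
    constructor <;> linarith
  have y2 : ∀ m n, |2 * (2 * xI d.b m n)| ≤ 4 * d.H := fun m n => by
    have := x2 m n
    rw [abs_le] at this ⊢
    constructor <;> linarith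
  have y3 : ∀ m n, |2 * -(2 * xR d.H d.a m n)| ≤ 4 * d.H := fun m n => by rw [mul_neg, abs_neg]; exact y1 m n
  have y4 : ∀ m n, |2 * -(2 * xI d.b m n)| ≤ 4 * d.H := fun m n => by rw [mul_neg, abs_neg]; exact y2 m n
  have hH2 : 0 ≤ 2 * d.H := by linarith
  have hH4 : 0 ≤ 4 * d.H := by linarith
  unfold RB
  split_ifs
  · exact (iRow_le hH2 (fun n => ediv_le (x1 _ n)) (fun n => ediv_le (x2 _ n)) (fun n => ediv_le (x4 _ n))
      (fun n => ediv_le (x7 _ n)) i).trans (by rw [abs_zero]; linarith)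
  · exact (iRow_le hH2 (fun n => ediv_le (x6 _ n)) (fun n => ediv_le (x1 _ n)) (fun n => ediv_le (x3 _ n))
      (fun n => ediv_le (x4 _ n)) i).trans (by rw [abs_zero]; linarith)
  · exact (iRow_le hH4 (fun n => ediv_le (y1 _ n)) (fun n => ediv_le (y2 _ n)) (fun n => ediv_le (y4 _ n))
      (fun n => ediv_le (y1 _ n)) i).trans (by rw [abs_zero]; linarith)
  · exact (iRow_le hH4 (fun n => ediv_le (y4 _ n)) (fun n => ediv_le (y1 _ n)) (fun n => ediv_le (y3 _ n))
      (fun n => ediv_le (y4 _ n)) i).trans (by rw [abs_zero]; linarith)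
  · rw [abs_mul, abs_neg]
    have := mul_le_mul_of_nonneg_left (rwK_le h K L d.c0 i) hw
    unfold rwH
    linarith
  · rw [abs_of_nonneg (by linarith)]; linarith
  · rw [abs_zero]; linarith

/-! ### packed columns as natural numbers -/

theorem of_sum (b C : ℕ) : ((of b C : ℕ) : ℤ) = ∑ c ∈ range C, 2 ^ b * pw b c := by
  have h : ∀ n, ((Helper54.RC.Fast.gs (2 ^ (b + 1)) n : ℕ) : ℤ) = ∑ c ∈ range n, pw b c := by
    intro n
    induction n with
    | zero => simp [Helper54.RC.Fast.gs]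
    | succ n ih =>
      rw [sum_range_succ']
      have e1 : ∀ c, pw b (c + 1) = 2 ^ (b + 1) * pw b c := by
        intro c
        rw [pw_eq, pw_eq, pow_succ]; ring
      rw [sum_congr rfl fun c _ => e1 c, ← mul_sum, ← ih, pw_eq]
      show (((1 + 2 ^ (b + 1) * Helper54.RC.Fast.gs (2 ^ (b + 1)) n : ℕ)) : ℤ) = _
      push_cast
      ring
  have e : of b C = 2 ^ b * on b C := rfl
  rw [e, Helper54.RC.Fast.on_eq]
  push_cast
  rw [h C, mul_sum]

/-- the natural number of a packed integer -/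
def cN (b C : ℕ) (x : ℤ) : ℕ := Int.toNat (x + Int.ofNat (of b C))

theorem cN_eq {b C : ℕ} {R : ℕ → ℤ} (hR : ∀ c < C, |R c| < 2 ^ b) {x : ℤ} (hx : x = ∑ c ∈ range C, R c * pw b c) :
    ((cN b C x : ℕ) : ℤ) = ∑ c ∈ range C, (R c + 2 ^ b) * pw b c := by
  have e : x + Int.ofNat (of b C) = ∑ c ∈ range C, (R c + 2 ^ b) * pw b c := by
    rw [hx]
    show _ + ((of b C : ℕ) : ℤ) = _
    rw [of_sum, ← sum_add_distrib]
    exact sum_congr rfl fun c _ => by ring
  unfold cN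
  rw [Int.toNat_of_nonneg, e]
  rw [e]
  refine sum_nonneg fun c hc => mul_nonneg ?_ ?_
  · have := hR c (mem_range.1 hc)
    rw [abs_lt] at this
    linarith
  · rw [pw_eq]; positivity

/-- the columns -/
def oA (b K L : ℕ) (d : OD) : List ℕ := (List.range (nt K L)).map fun i => cN b (nC L) (fA b K L d i)
def oB (b K L : ℕ) (d : OD) : List ℕ := (List.range (nt K L)).map fun i => cN b (nC L) (fB b K L d i)

theorem getD_map {n : ℕ} (f : ℕ → ℕ) {i : ℕ} (hi : i < n) : ((List.range n).map f).getD i 0 = f i := by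
  rw [List.getD_eq_getElem?_getD, List.getElem?_map, List.getElem?_range hi]
  rfl

theorem row_A {b K L : ℕ} {d : OD} {M : ℤ} (hL : Even L) (hd : Bd d M) (hM : M < 2 ^ b) {c i : ℕ} (hc : c < nC L)
    (hi : i < nt K L) : row b (oA b K L d) c i = RA K L d c i := by
  unfold row oA
  rw [getD_map _ hi]
  have hR : ∀ c < nC L, |RA K L d c i| < 2 ^ b := fun c _ => (RA_le hd K L c i).trans_lt hM
  exact dg_of (nC L) hR (cN_eq hR (by rw [colA_eq b hL d hi, fA_eq])) hc

theorem row_B {b K L : ℕ} {d : OD} {M : ℤ} (hL : Even L) (hd : Bd d M) (hM : M < 2 ^ b) {c i : ℕ} (hc : c < nC L)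
    (hi : i < nt K L) : row b (oB b K L d) c i = RB K L d c i := by
  unfold row oB
  rw [getD_map _ hi]
  have hR : ∀ c < nC L, |RB K L d c i| < 2 ^ b := fun c _ => (RB_le hd K L c i).trans_lt hM
  exact dg_of (nC L) hR (cN_eq hR (by rw [colB_eq b hL d hi, fB_eq])) hc

/-! ### the data of a record -/

/-- rounding of `x / D` -/
theorem rnd {x D : ℤ} (hD : 0 < D) : |(x : ℝ) / D - (((2 * x + D) / (2 * D) : ℤ) : ℝ)| ≤ 1 / 2 := by
  have hD' : (0 : ℝ) < D := by exact_mod_cast hD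
  have h1 := Int.mul_ediv_add_emod (2 * x + D) (2 * D)
  have h2 := Int.emod_nonneg (2 * x + D) (show (2 * D) ≠ 0 by omega)
  have h3 := Int.emod_lt_of_pos (2 * x + D) (show 0 < 2 * D by omega)
  set k := (2 * x + D) / (2 * D) with hk
  set r := (2 * x + D) % (2 * D) with hr
  have h4 : (2 * (D : ℝ)) * k + r = 2 * x + D := by exact_mod_cast h1
  have h5 : (0 : ℝ) ≤ r := by exact_mod_cast h2
  have h6 : (r : ℝ) < 2 * D := by exact_mod_cast h3
  have e : (x : ℝ) / D - k = (r - D) / (2 * D) := by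
    field_simp
    linarith
  rw [e, abs_div, abs_of_pos (show (0 : ℝ) < 2 * D by linarith), div_le_iff₀ (by linarith), abs_le]
  constructor <;> linarith

/-- the data of a record, scale `2 ^ s` -/
def odR (R : Rec) (s : ℕ) : OD where
  H := 2 ^ (s - 1)
  a := (2 * (2 ^ (s - 1) * R.e1) + 100000) / (2 * 100000)
  b := (2 * (2 ^ (s - 1) * R.e2) + 100000) / (2 * 100000)
  c0 := -(2 * 2 ^ (s - 1) * R.h0) / 100000
  c1 := 2 * 2 ^ (s - 1) * (600000 * R.h0 - 240000000000 - 2 * (R.e1 * R.e1 + R.e2 * R.e2)) / 30000000000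
  w := 6

theorem odR_ok (R : Rec) (s : ℕ) : (odR R s).Ok R.par := by
  have er : R.par.eta = ((R.e1 : ℂ) + Complex.I * (R.e2 : ℂ)) / 100000 := rfl
  have eh : R.par.h0 = (R.h0 : ℝ) / 100000 := rfl
  have ea : R.par.a0 = fun _ => 0 := rfl
  have ew : R.par.pr2 = 6 := rfl
  have re : R.par.eta.re = (R.e1 : ℝ) / 100000 := by
    rw [er]
    have : ((R.e1 : ℂ) + Complex.I * (R.e2 : ℂ)) / 100000 =
        (((R.e1 : ℝ) / 100000 : ℝ) : ℂ) + Complex.I * (((R.e2 : ℝ) / 100000 : ℝ) : ℂ) := by push_cast; ring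
    rw [this]
    simp
  have im : R.par.eta.im = (R.e2 : ℝ) / 100000 := by
    rw [er]
    have : ((R.e1 : ℂ) + Complex.I * (R.e2 : ℂ)) / 100000 =
        (((R.e1 : ℝ) / 100000 : ℝ) : ℂ) + Complex.I * (((R.e2 : ℝ) / 100000 : ℝ) : ℂ) := by push_cast; ring
    rw [this]
    simp
  have nn : ‖R.par.eta‖ ^ 2 = ((R.e1 : ℝ) / 100000) ^ 2 + ((R.e2 : ℝ) / 100000) ^ 2 := by
    rw [← Complex.normSq_eq_norm_sq, Complex.normSq_apply, re, im]
    ring
  refine ⟨⟨?_, ?_⟩, ?_, ?_, ?_, ?_⟩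
  · rw [re]
    have := rnd (x := 2 ^ (s - 1) * R.e1) (D := 100000) (by norm_num)
    have e : ((odR R s).H : ℝ) * ((R.e1 : ℝ) / 100000) = ((2 ^ (s - 1) * R.e1 : ℤ) : ℝ) / ((100000 : ℤ) : ℝ) := by
      show (((2 : ℤ) ^ (s - 1) : ℤ) : ℝ) * _ = _
      push_cast
      ring
    rw [e]
    exact this
  · rw [im]
    have := rnd (x := 2 ^ (s - 1) * R.e2) (D := 100000) (by norm_num)
    have e : ((odR R s).H : ℝ) * ((R.e2 : ℝ) / 100000) = ((2 ^ (s - 1) * R.e2 : ℤ) : ℝ) / ((100000 : ℤ) : ℝ) := by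
      show (((2 : ℤ) ^ (s - 1) : ℤ) : ℝ) * _ = _
      push_cast
      ring
    rw [e]
    exact this
  · rw [ea]
    simp [fc]
  · have h := dv (x := ((-(2 * 2 ^ (s - 1) * R.h0) : ℤ) : ℝ)) (e := 0) (y := -(2 * 2 ^ (s - 1) * R.h0)) (w := 100000)
      (by simp) (by norm_num)
    have e : ((2 * (odR R s).H : ℤ) : ℝ) * (-R.par.h0) =
        ((-(2 * 2 ^ (s - 1) * R.h0) : ℤ) : ℝ) / ((100000 : ℤ) : ℝ) := by
      rw [eh]
      show ((2 * (2 : ℤ) ^ (s - 1) : ℤ) : ℝ) * _ = _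
      push_cast
      ring
    rw [e]
    refine h.trans (by norm_num)
  · have h := dv (x := ((2 * 2 ^ (s - 1) * (600000 * R.h0 - 240000000000 - 2 * (R.e1 * R.e1 + R.e2 * R.e2)) : ℤ) : ℝ))
      (e := 0) (y := 2 * 2 ^ (s - 1) * (600000 * R.h0 - 240000000000 - 2 * (R.e1 * R.e1 + R.e2 * R.e2)))
      (w := 30000000000) (by simp) (by norm_num)
    have e : ((2 * (odR R s).H : ℤ) : ℝ) * (2 * R.par.h0 - 8 - 2 * (‖R.par.eta‖ ^ 2 / 3)) =
        ((2 * 2 ^ (s - 1) * (600000 * R.h0 - 240000000000 - 2 * (R.e1 * R.e1 + R.e2 * R.e2)) : ℤ) : ℝ) /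
          ((30000000000 : ℤ) : ℝ) := by
      rw [eh, nn]
      show ((2 * (2 : ℤ) ^ (s - 1) : ℤ) : ℝ) * _ = _
      push_cast
      ring
    rw [e]
    refine h.trans (by norm_num)
  · rw [ew]
    show (6 : ℝ) = ((6 : ℤ) : ℝ)
    norm_num

/-! ### the block -/

/-- the check of the data (`M` = bound of all digits, `M < 2 ^ b`) -/
def okO (b M : ℕ) (d : OD) : Bool :=
  decide (0 ≤ d.H ∧ d.a.natAbs ≤ d.H.natAbs ∧ d.b.natAbs ≤ d.H.natAbs ∧
    8 * d.H.natAbs + 2 * d.c0.natAbs + d.c1.natAbs ≤ M ∧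
    8 * d.H.natAbs + d.w.natAbs * (4 * d.H.natAbs + d.c0.natAbs) ≤ M ∧ d.w.natAbs ≤ 6 ∧ M < 2 ^ b)

theorem okO_sound {b M : ℕ} {d : OD} (h : okO b M d = true) :
    Bd d (M : ℤ) ∧ (M : ℤ) < 2 ^ b ∧ |(d.w : ℝ)| ≤ 6 := by
  obtain ⟨h0, h1, h2, h3, h4, h5, h6⟩ := of_decide_eq_true h
  have e : ∀ x : ℤ, |x| = (x.natAbs : ℤ) := fun x => Int.abs_eq_natAbs x
  have eH : d.H = (d.H.natAbs : ℤ) := by rw [← e, abs_of_nonneg h0]
  refine ⟨⟨h0, ?_, ?_, ?_, ?_⟩, by exact_mod_cast h6, ?_⟩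
  · rw [e, eH]; exact_mod_cast h1
  · rw [e, eH]; exact_mod_cast h2
  · rw [e, e, eH]; exact_mod_cast h3
  · rw [e, e, eH]; exact_mod_cast h4
  · have : |d.w| ≤ 6 := by rw [e]; exact_mod_cast h5
    exact_mod_cast this

open Helper25.SH.Mat (Blk sgr) in
/-- **THE BLOCK O1**: `W` = half of the factor of the form -/
theorem LB_O1 {P : Par} {K L N b M : ℕ} {d : OD} (W : ℕ) (hK : ¬ Even K) (hL : Even L) (hN : L ≤ N) (ok : d.Ok P)
    (h : okO b M d = true) :
    Helper43.CL.LB (nt K L) (2 * W * (((2 * d.H : ℤ) : ℝ) * ((2 * d.H : ℤ) : ℝ)))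
      (fun v => O1F P N (pV K L v) (rV K L v))
      (fun v => Blk.val b (nt K L) v (.bl false W (nC L) (oA b K L d) (oB b K L d)))
      (2 * W * (nC L * (nt K L * (36 * M + 288)))) := by
  obtain ⟨hd, hM, hw⟩ := okO_sound h
  have key := Helper71.SH.LB_bl (n := nt K L) (b := b) (m := nC L) (W := W) (A := oA b K L d) (B := oB b K L d)
    (X := XA P K L) (Y := XB P K L) (w := 1) (G := 2 * W) (S := 2 * W * (((2 * d.H : ℤ) : ℝ) * ((2 * d.H : ℤ) : ℝ)))
    (s := false) (q1 := ((2 * d.H : ℤ) : ℝ)) (q2 := ((2 * d.H : ℤ) : ℝ)) (eA := 12) (eB := 24)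
    (RA := fun _ => (M : ℝ)) (RB := fun _ => (M : ℝ)) rfl
    (fun c hc => LR.congr (lr_A hK hL ok c) (fun _ _ => rfl) (fun i hi => row_A hL hd hM hc hi))
    (fun c hc => LR.congr (lr_B hK hL ok (by norm_num) (by linarith) c) (fun _ _ => rfl)
      (fun i hi => row_B hL hd hM hc hi))
    (fun c hc i hi => by
      rw [row_A hL hd hM hc hi]
      exact_mod_cast RA_le hd K L c i)
    (fun c hc i hi => by
      rw [row_B hL hd hM hc hi]
      exact_mod_cast RB_le hd K L c i)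
    (by norm_num) (by norm_num) (fun _ _ => Nat.cast_nonneg M) (fun _ _ => Nat.cast_nonneg M)
    (mul_nonneg (by positivity) (mul_self_nonneg _))
    (by simp [sgr]) (g := fun v => O1F P N (pV K L v) (rV K L v))
    (fun v _ => by rw [O1_sum hL hN ok v, one_mul])
  refine Helper43.CL.LB.mono key (fun _ _ => le_rfl) (le_of_eq ?_)
  rw [sum_const, card_range, nsmul_eq_mul]
  ring

/-- the block of a record, scale `2 ^ 56`, factor `10 ^ 9` -/
theorem LB_O1_rec {R : Rec} {K L N b M : ℕ} (hK : ¬ Even K) (hL : Even L) (hN : L ≤ N)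
    (h : okO b M (odR R 56) = true) :
    Helper43.CL.LB (nt K L) (10 ^ 9 * 2 ^ 112) (fun v => O1F R.par N (pV K L v) (rV K L v))
      (fun v => Helper25.SH.Mat.Blk.val b (nt K L) v
        (.bl false 500000000 (nC L) (oA b K L (odR R 56)) (oB b K L (odR R 56))))
      (10 ^ 9 * (nC L * (nt K L * (36 * M + 288)))) := by
  have := LB_O1 (N := N) 500000000 hK hL hN (odR_ok R 56) h
  have e : (2 * (500000000 : ℕ) * (((2 * (odR R 56).H : ℤ) : ℝ) * ((2 * (odR R 56).H : ℤ) : ℝ)) : ℝ) =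
      10 ^ 9 * 2 ^ 112 := by
    show (2 * (500000000 : ℕ) * (((2 * (2 : ℤ) ^ 55 : ℤ) : ℝ) * ((2 * (2 : ℤ) ^ 55 : ℤ) : ℝ)) : ℝ) = _
    norm_num
  rw [e] at this
  refine Helper43.CL.LB.mono this (fun _ _ => le_rfl) (le_of_eq ?_)
  norm_num

end Helper38.SH
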