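import Pool.Agent.Helper95.SH.Cell

/-!
# Project RC, SHARP, cell engine: block O1 (`σ`, link 1, `H₀`), the exact identity

`O1F P N p r = 2/3 ‖σ‖² + 4/3 Re (conj σ η) + L1A - pr2 (H₀ - h0)² - 9`; for arrays with the coordinates `v` it is a finite sum
of products of real functionals of the coordinates.
-/

set_option autoImplicit false

open Finset

namespace Helper38.SH

open Helper95.SH Helper95.RC
open Helper56.RC (fc)
open Helper49.Sharp

/-- the block without the moments -/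
noncomputable def O1F (P : Par) (N : ℕ) (p r : ℤ → ℂ) : ℝ :=
  2 / 3 * ‖sgA P p r‖ ^ 2 + 4 / 3 * ((starRingEnd ℂ) (sgA P p r) * P.eta).re + L1A P N p r
    - P.pr2 * (H0A P p r - P.h0) ^ 2 - 9

theorem wm_sup {η : ℂ} {f : ℤ → ℂ} {L : ℕ} (h : Sup L f) {n : ℤ} (hn : n < -(L + 2) ∨ (L : ℤ) + 2 < n) :
    wm η f n = 0 := by
  unfold wm
  rw [h n (by rw [mem_Icc]; omega), h (n - 2) (by rw [mem_Icc]; omega), h (n + 2) (by rw [mem_Icc]; omega)]
  simp

theorem alA_sup {P : Par} {p r : ℤ → ℂ} {L : ℕ} (hp : Sup L p) (hr : Sup L r) {n : ℤ}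
    (hn : n < -(L + 2) ∨ (L : ℤ) + 2 < n) : alA P p r n = 0 := by
  unfold alA
  rw [wm_sup hp hn, wm_sup hr hn]
  simp

/-- the index of the rows -/
def mI (L j : ℕ) : ℤ := 2 * (j : ℤ) - (L + 2)

theorem sum_al {L N : ℕ} (hL : Even L) (h : L ≤ N) (f : ℤ → ℝ)
    (hf : ∀ n : ℤ, n < -(L + 2) ∨ (L : ℤ) + 2 < n → f n = 0) :
    ∑ j ∈ Icc (-((N + 2 : ℕ) : ℤ)) ((N + 2 : ℕ) : ℤ), f (2 * j) = ∑ j ∈ range (L + 3), f (mI L j) := by
  obtain ⟨l, rfl⟩ := hL
  have e : ∑ j ∈ range (l + l + 3), f (mI (l + l) j) =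
      ∑ j ∈ Icc (-((l + 1 : ℕ) : ℤ)) ((l + 1 : ℕ) : ℤ), f (2 * j) := by
    refine sum_bij' (fun j _ => (j : ℤ) - (l + 1)) (fun j _ => (j + (l + 1)).toNat) ?_ ?_ ?_ ?_ ?_
    · intro j hj
      rw [mem_range] at hj
      rw [mem_Icc]
      push_cast
      constructor <;> omega
    · intro j hj
      rw [mem_Icc] at hj
      rw [mem_range]
      push_cast at hj
      omega
    · intro j _
      show ((j : ℤ) - (l + 1) + (l + 1)).toNat = j
      omega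
    · intro j hj
      rw [mem_Icc] at hj
      push_cast at hj
      show (((j + (l + 1)).toNat : ℤ)) - (l + 1) = j
      omega
    · intro j _
      show f (mI (l + l) j) = f (2 * ((j : ℤ) - (l + 1)))
      congr 1
      unfold mI
      push_cast
      ring
  rw [e]
  symm
  refine sum_subset ?_ ?_
  · intro j hj
    rw [mem_Icc] at hj ⊢
    push_cast at hj ⊢
    constructor <;> omega
  · intro j _ hj
    refine hf _ ?_
    rw [mem_Icc] at hj
    push_cast at hj ⊢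
    omega

/-- the linear and constant part -/
noncomputable def linO (P : Par) (p r : ℤ → ℂ) : ℝ :=
  2 * (alA P p r 0 + (starRingEnd ℂ) P.eta * alA P p r 2 / 3 - P.eta * alA P p r (-2)).re
    + 4 / 3 * ((starRingEnd ℂ) (sgA P p r) * P.eta).re - 8 - 2 * (‖P.eta‖ ^ 2 / 3)

theorem O1F_eq {P : Par} {p r : ℤ → ℂ} {L N : ℕ} (hL : Even L) (h : L ≤ N) (hp : Sup L p) (hr : Sup L r) :
    O1F P N p r = ∑ j ∈ range (L + 3), ((alA P p r (mI L j)).re * ((alA P p r (mI L j)).re / ((mI L j : ℤ) + 1 : ℝ))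
        + (alA P p r (mI L j)).im * ((alA P p r (mI L j)).im / ((mI L j : ℤ) + 1 : ℝ)))
      + (2 / 3 * (sgA P p r).re * (sgA P p r).re + 2 / 3 * (sgA P p r).im * (sgA P p r).im
      + -P.pr2 * (H0A P p r - P.h0) * (H0A P p r - P.h0) + linO P p r * 1) := by
  have e := sum_al hL h (fun n => ‖alA P p r n‖ ^ 2 / ((n : ℝ) + 1)) (fun n hn => by
    show ‖alA P p r n‖ ^ 2 / ((n : ℝ) + 1) = 0
    rw [alA_sup hp hr hn, norm_zero]
    norm_num)
  have e1 : ∑ j ∈ Icc (-((N + 2 : ℕ) : ℤ)) ((N + 2 : ℕ) : ℤ), ‖alA P p r (2 * j)‖ ^ 2 / (2 * (j : ℝ) + 1) =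
      ∑ j ∈ range (L + 3), ((alA P p r (mI L j)).re * ((alA P p r (mI L j)).re / ((mI L j : ℤ) + 1 : ℝ))
        + (alA P p r (mI L j)).im * ((alA P p r (mI L j)).im / ((mI L j : ℤ) + 1 : ℝ))) := by
    have e0 : ∑ j ∈ Icc (-((N + 2 : ℕ) : ℤ)) ((N + 2 : ℕ) : ℤ), ‖alA P p r (2 * j)‖ ^ 2 / (2 * (j : ℝ) + 1) =
        ∑ j ∈ Icc (-((N + 2 : ℕ) : ℤ)) ((N + 2 : ℕ) : ℤ), ‖alA P p r (2 * j)‖ ^ 2 / (((2 * j : ℤ) : ℝ) + 1) :=
      sum_congr rfl fun j _ => by push_cast; rfl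
    rw [e0, e]
    refine sum_congr rfl fun j _ => ?_
    rw [← Complex.normSq_eq_norm_sq, Complex.normSq_apply]
    ring
  unfold O1F L1A
  rw [e1]
  have e2 : ‖sgA P p r‖ ^ 2 = (sgA P p r).re * (sgA P p r).re + (sgA P p r).im * (sgA P p r).im := by
    rw [← Complex.normSq_eq_norm_sq, Complex.normSq_apply]
  rw [e2]
  unfold linO
  ring

end Helper38.SH
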