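import Pool.Agent.Helper38.SH.O1C
import Pool.Agent.Helper42.SH.HFend

/-!
# Project RC, SHARP, cell engine: block O1 as a field of helper42's `Pieces`
-/

set_option autoImplicit false

namespace Helper38.SH

open Helper95.SH Helper49.Sharp Helper49.Cell
open Helper42.SH (LBB LBB.one gO1)
open Helper25.SH.Mat (Blk)

/-- the block of a record -/
def blkO1 (b K L : ℕ) (R : Rec) : Blk :=
  .bl false 500000000 (nC L) (oA b K L (odR R 56)) (oB b K L (odR R 56))

/-- the error of the block -/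
def errO1 (K L M : ℕ) : ℕ := Nat.mul 1000000000 (Nat.mul (nC L) (Nat.mul (nt K L) (Nat.add (Nat.mul 36 M) 288)))

/-- **field `o1` of `Pieces`** -/
theorem LBB_O1 {c : CD} {R : Rec} (hc : c.P = R.par) {K H N b M : ℕ} (hK : ¬ Even K) (hN : 2 * H ≤ N)
    (h : okO b M (odR R 56) = true) :
    LBB b (nt K (2 * H)) (10 ^ 9 * 2 ^ 112) (fun v => gO1 c K H N v) [blkO1 b K (2 * H) R]
      ((errO1 K (2 * H) M : ℕ) : ℝ) := by
  have := LB_O1_rec (R := R) (K := K) (L := 2 * H) (N := N) (b := b) (M := M) hK (even_two_mul H) hN h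
  refine LBB.one (Helper43.CL.LB.mono (Helper43.CL.LB.congr this (fun v _ => ?_) (fun v _ => rfl)) (fun _ _ => le_rfl)
    (le_of_eq ?_))
  · show O1F c.P N _ _ = _
    rw [hc]
  · show _ = ((1000000000 * (nC (2 * H) * (nt K (2 * H) * (36 * M + 288))) : ℕ) : ℝ)
    push_cast
    ring

end Helper38.SH
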