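import Pool.Agent.Helper38.SH.O1T

/-!
# Project RC, SHARP, cell engine: block O1, fast packed columns
-/

set_option autoImplicit false
set_option linter.unusedSimpArgs false

open Finset

namespace Helper38.SH

open Helper95.SH Helper95.RC
open Pool.Agent.Helper64.SH

/-- three neighbouring digits `u, v, w` at the frequencies `n - 2, n, n + 2` -/
def p3 (q L : ℕ) (n u v w : ℤ) : ℤ := pw q ((n + L) / 2).toNat * (u + pw q 1 * v + pw q 2 * w)

/-- the coordinate `j` of a hermitian array: `A n u v w` for the real parts, `B` for the imaginary parts -/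
def h3 (A B : ℤ → ℤ) (j : ℕ) : ℤ :=
  bif Nat.beq j 0 then A 0
  else bif Nat.beq (Nat.mod j 2) 1 then A (Int.ofNat (Nat.succ j)) + A (-Int.ofNat (Nat.succ j))
  else B (Int.ofNat j) - B (-Int.ofNat j)

theorem h3_eq (A B : ℤ → ℤ) (j : ℕ) : h3 A B j = ihr A B j := by
  unfold h3 ihr
  by_cases h0 : j = 0
  · subst h0; rfl
  have e0 : Nat.beq j 0 = false := by
    cases j with
    | zero => exact absurd rfl h0
    | succ k => rfl
  rw [e0, cond_false, if_neg h0]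
  by_cases h1 : j % 2 = 1
  · have e1 : Nat.beq (Nat.mod j 2) 1 = true := by
      rw [show Nat.mod j 2 = j % 2 from rfl, h1]; rfl
    rw [e1, cond_true, if_pos h1]
    rfl
  · have e1 : Nat.beq (Nat.mod j 2) 1 = false := by
      have : j % 2 = 0 := by omega
      rw [show Nat.mod j 2 = j % 2 from rfl, this]; rfl
    rw [e1, cond_false, if_neg h1]
    rfl

/-- constant, `s`, `p`, `r` -/
def i3 (b1 b2 : ℕ) (c A B C D : ℕ → ℤ) (i : ℕ) : ℤ :=
  bif Nat.beq i 0 then c 0 else bif Nat.ble b1 i then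
    (bif Nat.ble b2 i then C (Nat.sub i b2) + D (Nat.sub i b2) else A (Nat.sub i b1) + B (Nat.sub i b1)) else 0

variable (q K L : ℕ) (d : OD)

/-- main part of `p`: real parts, imaginary parts -/
def mp (j : ℕ) : ℤ :=
  h3 (fun n => p3 q L n (2 * d.a) (2 * d.H) (2 * d.a)) (fun n => p3 q L n (2 * d.b) 0 (-(2 * d.b))) j
  + pw q (L + 3) * h3 (fun n => p3 q L n (-(2 * d.b)) 0 (2 * d.b)) (fun n => p3 q L n (2 * d.a) (2 * d.H) (2 * d.a)) j
def mr (j : ℕ) : ℤ :=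
  h3 (fun n => p3 q L n d.b 0 (-d.b)) (fun n => p3 q L n (-d.a) (-d.H) (-d.a)) j
  + pw q (L + 3) * h3 (fun n => p3 q L n d.a d.H d.a) (fun n => p3 q L n d.b 0 (-d.b)) j
def mpw (j : ℕ) : ℤ :=
  h3 (fun n => p3 q L n (2 * d.a / (n - 1)) (2 * d.H / (n + 1)) (2 * d.a / (n + 3)))
    (fun n => p3 q L n (2 * d.b / (n - 1)) 0 (-(2 * d.b) / (n + 3))) j
  + pw q (L + 3) * h3 (fun n => p3 q L n (-(2 * d.b) / (n - 1)) 0 (2 * d.b / (n + 3)))
    (fun n => p3 q L n (2 * d.a / (n - 1)) (2 * d.H / (n + 1)) (2 * d.a / (n + 3))) j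
def mrw (j : ℕ) : ℤ :=
  h3 (fun n => p3 q L n (d.b / (n - 1)) 0 (-d.b / (n + 3)))
    (fun n => p3 q L n (-d.a / (n - 1)) (-d.H / (n + 1)) (-d.a / (n + 3))) j
  + pw q (L + 3) * h3 (fun n => p3 q L n (d.a / (n - 1)) (d.H / (n + 1)) (d.a / (n + 3)))
    (fun n => p3 q L n (d.b / (n - 1)) 0 (-d.b / (n + 3))) j

theorem xRm (H a n : ℤ) : xR H a (n - 2) n = a := by
  unfold xR; rw [if_neg (by omega), if_neg (by omega), if_pos rfl]
theorem xR0 (H a n : ℤ) : xR H a n n = H := by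
  unfold xR; rw [if_pos rfl]
theorem xRp (H a n : ℤ) : xR H a (n + 2) n = a := by
  unfold xR; rw [if_neg (by omega), if_pos rfl]
theorem xIm (b n : ℤ) : xI b (n - 2) n = b := by
  unfold xI; rw [if_neg (by omega), if_neg (by omega), if_pos rfl]
theorem xI0 (b n : ℤ) : xI b n n = 0 := by
  unfold xI; rw [if_pos rfl]
theorem xIp (b n : ℤ) : xI b (n + 2) n = -b := by
  unfold xI; rw [if_neg (by omega), if_pos rfl]

theorem pk_p3 (f : ℤ → ℤ → ℤ) : qRe.pkf q L f = fun n => p3 q L n (f (n - 2) n) (f n n) (f (n + 2) n) := rfl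

theorem iRow_p {K L i : ℕ} (h : bp K ≤ i) (h2 : i < br K L) {c : ℤ} {SR SI PR PI RR RI : ℤ → ℤ} :
    iRow K L c SR SI PR PI RR RI i = ihr PR PI (i - bp K) := by
  unfold iRow
  rw [if_neg (by unfold bp at h; omega), if_neg (by omega), if_pos h2]

theorem iRow_r {K L i : ℕ} (h : br K L ≤ i) {c : ℤ} {SR SI PR PI RR RI : ℤ → ℤ} :
    iRow K L c SR SI PR PI RR RI i = ihr RR RI (i - br K L) := by
  unfold iRow
  rw [if_neg (by unfold br bp at h; omega), if_neg (by unfold br at h; omega), if_neg (by omega)]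

theorem iRow_s {K L i : ℕ} (h0 : i ≠ 0) (h : i < bp K) {c : ℤ} {PR PI RR RI : ℤ → ℤ} :
    iRow K L c (fun _ => 0) (fun _ => 0) PR PI RR RI i = 0 := by
  unfold iRow
  rw [if_neg h0, if_pos h, ite_self]

theorem iRow_0 {K L : ℕ} {c : ℤ} {SR SI PR PI RR RI : ℤ → ℤ} :
    iRow K L c SR SI PR PI RR RI 0 = c := by
  unfold iRow
  rw [if_pos rfl]

theorem n3 (n : ℤ) : n + 2 + 1 = n + 3 := by ring
theorem n1 (n : ℤ) : n - 2 + 1 = n - 1 := by ring

theorem mp_eq {i : ℕ} (h : bp K ≤ i) (h2 : i < br K L) :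
    qRe q K L d i + pw q (L + 3) * qIm q K L d i = mp q L d (i - bp K) := by
  unfold qRe qIm mp
  rw [iRow_p h h2, iRow_p h h2, h3_eq, h3_eq]
  simp only [pk_p3, xRm, xR0, xRp, xIm, xI0, xIp, mul_neg, neg_neg, mul_zero, neg_zero]

theorem mr_eq {i : ℕ} (h : br K L ≤ i) :
    qRe q K L d i + pw q (L + 3) * qIm q K L d i = mr q L d (i - br K L) := by
  unfold qRe qIm mr
  rw [iRow_r h, iRow_r h, h3_eq, h3_eq]
  simp only [pk_p3, xRm, xR0, xRp, xIm, xI0, xIp]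

theorem mpw_eq {i : ℕ} (h : bp K ≤ i) (h2 : i < br K L) :
    qRw q K L d i + pw q (L + 3) * qIw q K L d i = mpw q L d (i - bp K) := by
  unfold qRw qIw mpw
  rw [iRow_p h h2, iRow_p h h2, h3_eq, h3_eq]
  simp only [pk_p3, xRm, xR0, xRp, xIm, xI0, xIp, mul_neg, neg_neg, mul_zero, neg_zero, n1, n3,
    Int.zero_ediv]

theorem mrw_eq {i : ℕ} (h : br K L ≤ i) :
    qRw q K L d i + pw q (L + 3) * qIw q K L d i = mrw q L d (i - br K L) := by
  unfold qRw qIw mrw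
  rw [iRow_r h, iRow_r h, h3_eq, h3_eq]
  simp only [pk_p3, xRm, xR0, xRp, xIm, xI0, xIp, n1, n3, Int.zero_ediv]

/-! ### the four extra rows -/

/-- `x, y, z` = `2a, 2b, 2H` (or their multiples); rows: `Re σ` on `p`; `Im σ` on `p` = `Re σ` on `r`; `Im σ` on `r`; `H₀` on `p` -/
def eS (x y z : ℤ) : ℕ → ℤ
  | 0 => x
  | 1 => z
  | 3 => x
  | 4 => y
  | _ => 0
def eT (x y y' z : ℤ) : ℕ → ℤ
  | 0 => y
  | 2 => z
  | 3 => y'
  | 4 => x
  | _ => 0
def eH (d : OD) : ℕ → ℤ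
  | 0 => 2 * d.H
  | 1 => 4 * d.a
  | 2 => 4 * d.b
  | _ => 0

variable (H a b : ℤ)

theorem ihr_S (j : ℕ) : ihr (fun n => 2 * xR H a 2 n) (fun n => 2 * xI b 2 n) j = eS (2 * a) (2 * b) (2 * H) j := by
  rcases j with _ | _ | _ | _ | _ | j
  · simp [ihr, xR, xI, eS]
  · simp [ihr, xR, xI, eS]
  · simp [ihr, xR, xI, eS]
  · simp [ihr, xR, xI, eS]
  · simp [ihr, xR, xI, eS]
  · show ihr _ _ (j + 5) = 0
    unfold ihr
    rw [if_neg (show ¬ (j + 5 = 0) by omega)]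
    simp only [xR, xI]
    split_ifs <;> omega

theorem ihr_T (j : ℕ) : ihr (fun n => -(2 * xI b 2 n)) (fun n => 2 * xR H a 2 n) j =
    eT (2 * a) (2 * b) (-(2 * b)) (2 * H) j := by
  rcases j with _ | _ | _ | _ | _ | j
  · simp [ihr, xR, xI, eT]
  · simp [ihr, xR, xI, eT]
  · simp [ihr, xR, xI, eT]
  · simp [ihr, xR, xI, eT]
  · simp [ihr, xR, xI, eT]
  · show ihr _ _ (j + 5) = 0
    unfold ihr
    rw [if_neg (show ¬ (j + 5 = 0) by omega)]
    simp only [xR, xI]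
    split_ifs <;> omega

theorem ihr_U (j : ℕ) : ihr (fun n => -(2 * xR H a 2 n)) (fun n => -(2 * xI b 2 n)) j =
    eS (-(2 * a)) (-(2 * b)) (-(2 * H)) j := by
  rcases j with _ | _ | _ | _ | _ | j
  · simp [ihr, xR, xI, eS]
  · simp [ihr, xR, xI, eS]
  · simp [ihr, xR, xI, eS]
  · simp [ihr, xR, xI, eS]
  · simp [ihr, xR, xI, eS]
  · show ihr _ _ (j + 5) = 0
    unfold ihr
    rw [if_neg (show ¬ (j + 5 = 0) by omega)]
    simp only [xR, xI]
    split_ifs <;> omega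

theorem ihr_Sw (j : ℕ) : ihr (fun n => 2 * (2 * xR H a 2 n) / 3) (fun n => 2 * (2 * xI b 2 n) / 3) j =
    eS (2 * (2 * a) / 3) (2 * (2 * b) / 3) (2 * (2 * H) / 3) j := by
  rcases j with _ | _ | _ | _ | _ | j
  · simp [ihr, xR, xI, eS]
  · simp [ihr, xR, xI, eS]
  · simp [ihr, xR, xI, eS]
  · simp [ihr, xR, xI, eS]
  · simp [ihr, xR, xI, eS]
  · show ihr _ _ (j + 5) = 0
    unfold ihr
    rw [if_neg (show ¬ (j + 5 = 0) by omega)]
    simp only [xR, xI]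
    split_ifs <;> omega

theorem ihr_Tw (j : ℕ) : ihr (fun n => 2 * -(2 * xI b 2 n) / 3) (fun n => 2 * (2 * xR H a 2 n) / 3) j =
    eT (2 * (2 * a) / 3) (2 * (2 * b) / 3) (2 * -(2 * b) / 3) (2 * (2 * H) / 3) j := by
  rcases j with _ | _ | _ | _ | _ | j
  · simp [ihr, xR, xI, eT]
  · simp [ihr, xR, xI, eT]
  · simp [ihr, xR, xI, eT]
  · simp [ihr, xR, xI, eT]
  · simp [ihr, xR, xI, eT]
  · show ihr _ _ (j + 5) = 0
    unfold ihr
    rw [if_neg (show ¬ (j + 5 = 0) by omega)]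
    simp only [xR, xI]
    split_ifs <;> omega

theorem ihr_Uw (j : ℕ) : ihr (fun n => 2 * -(2 * xR H a 2 n) / 3) (fun n => 2 * -(2 * xI b 2 n) / 3) j =
    eS (2 * -(2 * a) / 3) (2 * -(2 * b) / 3) (2 * -(2 * H) / 3) j := by
  rcases j with _ | _ | _ | _ | _ | j
  · simp [ihr, xR, xI, eS]
  · simp [ihr, xR, xI, eS]
  · simp [ihr, xR, xI, eS]
  · simp [ihr, xR, xI, eS]
  · simp [ihr, xR, xI, eS]
  · show ihr _ _ (j + 5) = 0
    unfold ihr
    rw [if_neg (show ¬ (j + 5 = 0) by omega)]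
    simp only [xR, xI]
    split_ifs <;> omega

theorem ihr_H (d : OD) (j : ℕ) : ihr (fun n => 2 * xR d.H d.a 0 n) (fun n => 2 * xI d.b 0 n) j = eH d j := by
  rcases j with _ | _ | _ | j
  · simp [ihr, xR, xI, eH]
  · simp [ihr, xR, xI, eH]
    ring
  · simp [ihr, xR, xI, eH]
    ring
  · show ihr _ _ (j + 3) = 0
    unfold ihr
    rw [if_neg (show ¬ (j + 3 = 0) by omega)]
    simp only [xR, xI]
    split_ifs <;> omega

theorem ihr_Hr (d : OD) (j : ℕ) : ihr (fun n => xI d.b 0 n) (fun n => - xR d.H d.a 0 n) j = 0 := by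
  rcases j with _ | _ | _ | j
  · simp [ihr, xR, xI]
  · simp [ihr, xR, xI]
  · simp [ihr, xR, xI]
  · show ihr _ _ (j + 3) = 0
    unfold ihr
    rw [if_neg (show ¬ (j + 3 = 0) by omega)]
    simp only [xR, xI]
    split_ifs <;> omega

/-! ### the columns -/

/-- four digits from the position `2 (L + 3)` on -/
def f4 (q L : ℕ) (x y z w : ℤ) : ℤ :=
  pw q (2 * (L + 3)) * (x + pw q 1 * y + pw q 2 * z + pw q 3 * w)

/-- the extra digits on `p` and `r`, unweighted and weighted -/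
def ep (j : ℕ) : ℤ :=
  bif Nat.ble 5 j then 0 else f4 q L (eS (2 * d.a) (2 * d.b) (2 * d.H) j) (eT (2 * d.a) (2 * d.b) (-(2 * d.b)) (2 * d.H) j)
    (eH d j) (2 * eH d j)
def er (j : ℕ) : ℤ :=
  bif Nat.ble 5 j then 0 else f4 q L (eT (2 * d.a) (2 * d.b) (-(2 * d.b)) (2 * d.H) j)
    (eS (-(2 * d.a)) (-(2 * d.b)) (-(2 * d.H)) j) 0 0
def epw (j : ℕ) : ℤ :=
  bif Nat.ble 5 j then 0 else f4 q L (eS (2 * (2 * d.a) / 3) (2 * (2 * d.b) / 3) (2 * (2 * d.H) / 3) j)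
    (eT (2 * (2 * d.a) / 3) (2 * (2 * d.b) / 3) (2 * -(2 * d.b) / 3) (2 * (2 * d.H) / 3) j) (-d.w * eH d j) 0
def erw (j : ℕ) : ℤ :=
  bif Nat.ble 5 j then 0 else f4 q L (eT (2 * (2 * d.a) / 3) (2 * (2 * d.b) / 3) (2 * -(2 * d.b) / 3) (2 * (2 * d.H) / 3) j)
    (eS (2 * -(2 * d.a) / 3) (2 * -(2 * d.b) / 3) (2 * -(2 * d.H) / 3) j) 0 0

/-- THE PACKED COLUMNS, FAST -/
def fA (i : ℕ) : ℤ :=
  i3 (bp K) (br K L) (fun _ => f4 q L 0 0 d.c0 (2 * d.c0 + d.c1)) (mp q L d) (ep q L d) (mr q L d) (er q L d) i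
def fB (i : ℕ) : ℤ :=
  i3 (bp K) (br K L) (fun _ => f4 q L 0 0 (-d.w * d.c0) (2 * d.H)) (mpw q L d) (epw q L d) (mrw q L d) (erw q L d) i

theorem eS_5 {x y z : ℤ} {j : ℕ} (h : 5 ≤ j) : eS x y z j = 0 := by
  obtain ⟨k, rfl⟩ : ∃ k, j = k + 5 := ⟨j - 5, by omega⟩
  rfl
theorem eT_5 {x y y' z : ℤ} {j : ℕ} (h : 5 ≤ j) : eT x y y' z j = 0 := by
  obtain ⟨k, rfl⟩ : ∃ k, j = k + 5 := ⟨j - 5, by omega⟩
  rfl
theorem eH_5 {d : OD} {j : ℕ} (h : 5 ≤ j) : eH d j = 0 := by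
  obtain ⟨k, rfl⟩ : ∃ k, j = k + 5 := ⟨j - 5, by omega⟩
  rfl

theorem bble (j : ℕ) : Nat.ble 5 j = decide (5 ≤ j) := by
  by_cases h : 5 ≤ j
  · rw [decide_eq_true h]; exact Nat.ble_eq_true_of_le h
  · rw [decide_eq_false h]
    exact Bool.eq_false_iff.2 fun h2 => h (Nat.le_of_ble_eq_true h2)

theorem f4_0 : f4 q L 0 0 0 0 = 0 := by unfold f4; ring

theorem f4_eq (x y z w : ℤ) : pw q (2 * (L + 3)) * x + pw q (2 * (L + 3) + 1) * y + pw q (2 * (L + 3) + 2) * z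
    + pw q (2 * (L + 3) + 3) * w = f4 q L x y z w := by
  unfold f4
  rw [pw_add, pw_add, pw_add]
  ring

theorem ep_eq (j : ℕ) : f4 q L (eS (2 * d.a) (2 * d.b) (2 * d.H) j) (eT (2 * d.a) (2 * d.b) (-(2 * d.b)) (2 * d.H) j)
    (eH d j) (2 * eH d j) = ep q L d j := by
  unfold ep
  rw [bble]
  by_cases h : 5 ≤ j
  · rw [decide_eq_true h, cond_true, eS_5 h, eT_5 h, eH_5 h, mul_zero, f4_0]
  · rw [decide_eq_false h, cond_false]

theorem er_eq (j : ℕ) : f4 q L (eT (2 * d.a) (2 * d.b) (-(2 * d.b)) (2 * d.H) j)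
    (eS (-(2 * d.a)) (-(2 * d.b)) (-(2 * d.H)) j) 0 0 = er q L d j := by
  unfold er
  rw [bble]
  by_cases h : 5 ≤ j
  · rw [decide_eq_true h, cond_true, eS_5 h, eT_5 h, f4_0]
  · rw [decide_eq_false h, cond_false]

theorem epw_eq (j : ℕ) : f4 q L (eS (2 * (2 * d.a) / 3) (2 * (2 * d.b) / 3) (2 * (2 * d.H) / 3) j)
    (eT (2 * (2 * d.a) / 3) (2 * (2 * d.b) / 3) (2 * -(2 * d.b) / 3) (2 * (2 * d.H) / 3) j) (-d.w * eH d j) 0 =
    epw q L d j := by
  unfold epw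
  rw [bble]
  by_cases h : 5 ≤ j
  · rw [decide_eq_true h, cond_true, eS_5 h, eT_5 h, eH_5 h, mul_zero, f4_0]
  · rw [decide_eq_false h, cond_false]

theorem erw_eq (j : ℕ) : f4 q L (eT (2 * (2 * d.a) / 3) (2 * (2 * d.b) / 3) (2 * -(2 * d.b) / 3) (2 * (2 * d.H) / 3) j)
    (eS (2 * -(2 * d.a) / 3) (2 * -(2 * d.b) / 3) (2 * -(2 * d.H) / 3) j) 0 0 = erw q L d j := by
  unfold erw
  rw [bble]
  by_cases h : 5 ≤ j
  · rw [decide_eq_true h, cond_true, eS_5 h, eT_5 h, f4_0]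
  · rw [decide_eq_false h, cond_false]

theorem i3_0 {b1 b2 : ℕ} {c A B C D : ℕ → ℤ} : i3 b1 b2 c A B C D 0 = c 0 := rfl

theorem i3_s {b1 b2 : ℕ} {c A B C D : ℕ → ℤ} {i : ℕ} (h0 : i ≠ 0) (h : i < b1) : i3 b1 b2 c A B C D i = 0 := by
  unfold i3
  have e0 : Nat.beq i 0 = false := by
    cases i with
    | zero => exact absurd rfl h0
    | succ k => rfl
  have e1 : Nat.ble b1 i = false := Bool.eq_false_iff.2 fun h2 => by have := Nat.le_of_ble_eq_true h2; omega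
  rw [e0, e1]; rfl

theorem i3_p {b1 b2 : ℕ} {c A B C D : ℕ → ℤ} {i : ℕ} (h0 : i ≠ 0) (h : b1 ≤ i) (h2 : i < b2) :
    i3 b1 b2 c A B C D i = A (i - b1) + B (i - b1) := by
  unfold i3
  have e0 : Nat.beq i 0 = false := by
    cases i with
    | zero => exact absurd rfl h0
    | succ k => rfl
  have e1 : Nat.ble b1 i = true := Nat.ble_eq_true_of_le h
  have e2 : Nat.ble b2 i = false := Bool.eq_false_iff.2 fun h2 => by have := Nat.le_of_ble_eq_true h2; omega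
  rw [e0, e1, e2]; rfl

theorem i3_r {b1 b2 : ℕ} {c A B C D : ℕ → ℤ} {i : ℕ} (h0 : i ≠ 0) (h : b1 ≤ i) (h2 : b2 ≤ i) :
    i3 b1 b2 c A B C D i = C (i - b2) + D (i - b2) := by
  unfold i3
  have e0 : Nat.beq i 0 = false := by
    cases i with
    | zero => exact absurd rfl h0
    | succ k => rfl
  have e1 : Nat.ble b1 i = true := Nat.ble_eq_true_of_le h
  have e2 : Nat.ble b2 i = true := Nat.ble_eq_true_of_le h2
  rw [e0, e1, e2]; rfl

theorem fA_eq (i : ℕ) : colA q K L d i = fA q K L d i := by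
  unfold colA fA
  rw [f4_eq]
  by_cases h0 : i = 0
  · subst h0
    rw [i3_0]
    unfold qRe qIm rwS rwT rwH rwK
    simp only [iRow_0, if_true]
    ring
  by_cases h1 : i < bp K
  · rw [i3_s h0 h1]
    unfold qRe qIm rwS rwT rwH rwK
    simp only [iRow_s h0 h1, if_neg h0, mul_zero, add_zero, f4_0]
  by_cases h2 : i < br K L
  · have h1' : bp K ≤ i := by omega
    rw [i3_p h0 h1' h2, mp_eq q K L d h1' h2, ← ep_eq]
    unfold rwS rwT rwH rwK
    simp only [iRow_p h1' h2, if_neg h0, add_zero, ihr_S, ihr_T, ihr_H]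
  · have h1' : bp K ≤ i := by omega
    have h2' : br K L ≤ i := by omega
    rw [i3_r h0 h1' h2', mr_eq q K L d h2', ← er_eq]
    unfold rwS rwT rwH rwK
    simp only [iRow_r h2', if_neg h0, add_zero, ihr_U, ihr_T, ihr_Hr, mul_zero]

theorem fB_eq (i : ℕ) : colB q K L d i = fB q K L d i := by
  unfold colB fB
  rw [f4_eq]
  by_cases h0 : i = 0
  · subst h0
    rw [i3_0]
    unfold qRw qIw rwSw rwTw rwH rwK
    simp only [iRow_0, if_true]
    ring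
  by_cases h1 : i < bp K
  · rw [i3_s h0 h1]
    unfold qRw qIw rwSw rwTw rwH rwK
    simp only [iRow_s h0 h1, if_neg h0, mul_zero, add_zero, f4_0]
  by_cases h2 : i < br K L
  · have h1' : bp K ≤ i := by omega
    rw [i3_p h0 h1' h2, mpw_eq q K L d h1' h2, ← epw_eq]
    unfold rwSw rwTw rwH rwK
    simp only [iRow_p h1' h2, if_neg h0, ihr_Sw, ihr_Tw, ihr_H]
  · have h1' : bp K ≤ i := by omega
    have h2' : br K L ≤ i := by omega
    rw [i3_r h0 h1' h2', mrw_eq q K L d h2', ← erw_eq]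
    unfold rwSw rwTw rwH rwK
    simp only [iRow_r h2', if_neg h0, ihr_Uw, ihr_Tw, ihr_Hr, mul_zero]

end Helper38.SH
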