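import Pool.Agent.Helper38.SH.O1F

/-!
# Project RC, SHARP, cell engine: the exact row of `H₀` plus a constant, denominator `100000`
-/

set_option autoImplicit false

open Finset

namespace Helper38.SH

open Helper95.SH Helper95.RC
open Helper56.RC (fc)
open Helper49.Sharp
open Pool.Agent.Helper64.SH

/-- the exact row -/
def hRow (K : ℕ) (e1 e2 c : ℤ) (i : ℕ) : ℤ :=
  if i = 0 then c else if i = bp K then 100000 else if i = bp K + 1 then 2 * e1 else if i = bp K + 2 then 2 * e2 else 0

theorem rwK_hRow {K L : ℕ} (hL : 2 ≤ L) (e1 e2 c w1 w2 w3 : ℤ) (i : ℕ) :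
    rwK K L ⟨100000, e1, e2, w1, w2, w3⟩ (2 * c) i = 2 * hRow K e1 e2 c i := by
  unfold rwK hRow
  by_cases h0 : i = 0
  · subst h0
    rw [iRow_0, if_pos rfl]
  rw [if_neg h0]
  by_cases h1 : i < bp K
  · rw [iRow_s h0 h1, if_neg (by omega), if_neg (by omega), if_neg (by omega), mul_zero]
  by_cases h2 : i < br K L
  · have h1' : bp K ≤ i := by omega
    rw [iRow_p h1' h2]
    have := ihr_H (⟨100000, e1, e2, w1, w2, w3⟩ : OD) (i - bp K)
    rw [this]
    obtain ⟨j, hj⟩ : ∃ j, i = bp K + j := ⟨i - bp K, by omega⟩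
    subst hj
    rw [show bp K + j - bp K = j by omega]
    rcases j with _ | _ | _ | j
    · rw [if_pos (by omega)]; rfl
    · rw [if_neg (by omega), if_pos (by omega)]
      show 4 * e1 = _
      ring
    · rw [if_neg (by omega), if_neg (by omega), if_pos (by omega)]
      show 4 * e2 = _
      ring
    · rw [if_neg (by omega), if_neg (by omega), if_neg (by omega)]
      show (0 : ℤ) = _
      ring
  · have h2' : br K L ≤ i := by omega
    rw [iRow_r h2', ihr_Hr (⟨100000, e1, e2, w1, w2, w3⟩ : OD)]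
    have : bp K + 3 ≤ i := by unfold br at h2'; omega
    rw [if_neg (by omega), if_neg (by omega), if_neg (by omega), mul_zero]

/-- **the exact row of `H₀ + k`** -/
theorem lr_H0 {P : Par} {K L : ℕ} (hK : ¬ Even K) (hL : Even L) (h2 : 2 ≤ L) {e1 e2 c : ℤ} {k : ℝ}
    (hr : 100000 * P.eta.re = e1) (hi : 100000 * P.eta.im = e2) (ha : fc P.a0 0 = 0) (hk : 100000 * k = c) :
    LR (nt K L) 100000 (fun v => H0A P (pV K L v) (rV K L v) + k) (hRow K e1 e2 c) 0 := by
  have z1 : ∀ m n, (100000 : ℝ) * (kA P.eta m n).re = (xR 100000 e1 m n : ℝ) := by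
    intro m n
    unfold kA xR
    split_ifs
    · simp
    · rw [Complex.conj_re]; exact hr
    · exact hr
    · simp
  have z2 : ∀ m n, (100000 : ℝ) * (kA P.eta m n).im = (xI e2 m n : ℝ) := by
    intro m n
    unfold kA xI
    split_ifs
    · simp
    · rw [Complex.conj_im]; push_cast; linarith
    · exact hi
    · simp
  have := row_gen P hK hL 100000 0 (x := 1) (y := Complex.I / 2) (c0 := k) (c := 2 * c) (e := 0) le_rfl
    (PR := fun n => 2 * xR 100000 e1 0 n) (PI := fun n => 2 * xI e2 0 n) (RR := fun n => xI e2 0 n)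
    (RI := fun n => - xR 100000 e1 0 n)
    (by rw [abs_le]; push_cast; constructor <;> linarith)
    (fun n => by
      rw [map_one, one_mul, abs_le]
      have := z1 0 n
      push_cast
      constructor <;> linarith)
    (fun n => by
      rw [map_one, one_mul, abs_le]
      have := z2 0 n
      push_cast
      constructor <;> linarith)
    (fun n => by
      rw [conj_I2, I2_re, abs_le]
      have := z2 0 n
      push_cast
      constructor <;> linarith)
    (fun n => by
      rw [conj_I2, I2_im, abs_le]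
      have := z1 0 n
      push_cast
      constructor <;> linarith)
  obtain ⟨ρ, r1, r2⟩ := this
  refine ⟨ρ, fun v hv => ?_, fun i hi' => ?_⟩
  · rw [← r1 v hv]
    beta_reduce
    rw [H0A_eq ha]
    unfold alA
    rw [one_mul]
    ring
  · have h3 := r2 i hi'
    have h4 : iRow K L (2 * c) (fun _ => 0) (fun _ => 0) (fun n => 2 * xR 100000 e1 0 n) (fun n => 2 * xI e2 0 n)
        (fun n => xI e2 0 n) (fun n => - xR 100000 e1 0 n) i = 2 * hRow K e1 e2 c i :=
      rwK_hRow h2 e1 e2 c 0 0 0 i
    rw [h4] at h3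
    rw [abs_le] at h3 ⊢
    push_cast at h3
    constructor <;> linarith [h3.1, h3.2]

theorem hRow_le {K : ℕ} {e1 e2 c M : ℤ} (h1 : |c| ≤ M) (h2 : 100000 ≤ M) (h3 : 2 * |e1| ≤ M) (h4 : 2 * |e2| ≤ M)
    (i : ℕ) : |(hRow K e1 e2 c i : ℝ)| ≤ M := by
  have : |hRow K e1 e2 c i| ≤ M := by
    unfold hRow
    split_ifs
    · exact h1
    · exact (by norm_num : |(100000 : ℤ)| = 100000).le.trans h2
    · rw [abs_mul]; exact (by norm_num : |(2 : ℤ)| = 2) ▸ h3
    · rw [abs_mul]; exact (by norm_num : |(2 : ℤ)| = 2) ▸ h4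
    · rw [abs_zero]; linarith
  exact_mod_cast this

end Helper38.SH
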