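import Pool.Agent.Helper38.SH.O1
import Pool.Agent.Helper64.SH.Row

/-!
# Project RC, SHARP, cell engine: block O1, rows

Integer data: `H = 2^(s-1)`, `a, b` with `|H Re η - a| ≤ 1/2`, `|H Im η - b| ≤ 1/2`. `xR, xI`: the conjugate of the
coefficient of `f n` in `wm η f m`, times `H`. Rows of `Re α_m`, `Im α_m`, the same divided by `m + 1`, `σ`, `H₀ - h0`,
linear part; all at the scale `2^s = 2 H`.
-/

set_option autoImplicit false

open Finset

namespace Helper38.SH

open Helper95.SH Helper95.RC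
open Helper56.RC (fc)
open Helper49.Sharp
open Pool.Agent.Helper64.SH

/-- conjugate of the coefficient of `f n` in `wm η f m` -/
noncomputable def kA (η : ℂ) (m n : ℤ) : ℂ :=
  if m = n then 1 else if m = n + 2 then (starRingEnd ℂ) η else if m = n - 2 then η else 0

theorem sum_kA {N : ℕ} (η : ℂ) (f : ℤ → ℂ) (m : ℤ) (hf : Sup N f) :
    wm η f m = ∑ n ∈ Icc (-(N : ℤ)) N, f n * (starRingEnd ℂ) (kA η m n) := by
  have hz : ∀ n, n ∉ Icc (-(N : ℤ)) N → f n = 0 := hf
  have key : ∀ k : ℤ, ∀ c : ℂ, ∑ n ∈ Icc (-(N : ℤ)) N, f n * (if n = k then c else 0) = c * f k := by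
    intro k c
    by_cases hk : k ∈ Icc (-(N : ℤ)) N
    · rw [sum_eq_single k]
      · rw [if_pos rfl, mul_comm]
      · intro n _ hn; rw [if_neg hn, mul_zero]
      · intro h; exact absurd hk h
    · rw [hz k hk, mul_zero]
      refine sum_eq_zero fun n hn => ?_
      rw [if_neg (show ¬ n = k from fun h => hk (by rw [← h]; exact hn)), mul_zero]
  have e : ∀ n : ℤ, f n * (starRingEnd ℂ) (kA η m n) = f n * (if n = m then 1 else 0)
      + f n * (if n = m - 2 then η else 0) + f n * (if n = m + 2 then (starRingEnd ℂ) η else 0) := by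
    intro n
    unfold kA
    by_cases h1 : m = n
    · rw [if_pos h1, if_pos (show n = m by omega), if_neg (show ¬ n = m - 2 by omega),
        if_neg (show ¬ n = m + 2 by omega)]
      simp
    rw [if_neg h1, if_neg (show ¬ n = m by omega)]
    by_cases h2 : m = n + 2
    · rw [if_pos h2, if_pos (show n = m - 2 by omega), if_neg (show ¬ n = m + 2 by omega)]
      simp
    rw [if_neg h2, if_neg (show ¬ n = m - 2 by omega)]
    by_cases h3 : m = n - 2
    · rw [if_pos h3, if_pos (show n = m + 2 by omega)]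
      simp
    rw [if_neg h3, if_neg (show ¬ n = m + 2 by omega)]
    simp
  rw [sum_congr rfl fun n _ => e n, sum_add_distrib, sum_add_distrib, key, key, key]
  unfold wm
  ring

/-- the integers -/
def xR (H a : ℤ) (m n : ℤ) : ℤ := if m = n then H else if m = n + 2 then a else if m = n - 2 then a else 0
def xI (b : ℤ) (m n : ℤ) : ℤ := if m = n then 0 else if m = n + 2 then -b else if m = n - 2 then b else 0

/-- the hypothesis on the integer data -/
structure Eta (η : ℂ) (H a b : ℤ) : Prop where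
  re : |(H : ℝ) * η.re - a| ≤ 1 / 2
  im : |(H : ℝ) * η.im - b| ≤ 1 / 2

theorem Eta.kre {η : ℂ} {H a b : ℤ} (h : Eta η H a b) (m n : ℤ) : |(H : ℝ) * (kA η m n).re - xR H a m n| ≤ 1 / 2 := by
  unfold kA xR
  split_ifs
  · simp
  · simpa using h.re
  · simpa using h.re
  · simp

theorem Eta.kim {η : ℂ} {H a b : ℤ} (h : Eta η H a b) (m n : ℤ) : |(H : ℝ) * (kA η m n).im - xI b m n| ≤ 1 / 2 := by
  unfold kA xI
  split_ifs
  · simp
  · have := h.im
    rw [Complex.conj_im]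
    rw [← abs_neg]
    push_cast
    rw [show -((H : ℝ) * -η.im - -(b : ℝ)) = H * η.im - b by ring]
    exact this
  · exact h.im
  · simp

/-- a complex number close to two integers: the norm -/
theorem ci_le {z : ℂ} {x y : ℤ} {e f : ℝ} (h1 : |z.re - x| ≤ e) (h2 : |z.im - y| ≤ f) : ‖z - ci x y‖ ≤ e + f := by
  refine (Complex.norm_le_abs_re_add_abs_im _).trans (add_le_add ?_ ?_)
  · rw [Complex.sub_re, ci_re]; exact h1
  · rw [Complex.sub_im, ci_im]; exact h2

/-- floor division -/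
theorem dv {x e : ℝ} {y w : ℤ} (h : |x - y| ≤ e) (hw : w ≠ 0) : |x / w - ((y / w : ℤ) : ℝ)| ≤ e + 1 := by
  have hw1 : (1 : ℝ) ≤ |(w : ℝ)| := by
    have : (1 : ℤ) ≤ |w| := Int.one_le_abs hw
    exact_mod_cast this
  have hwR : (w : ℝ) ≠ 0 := by exact_mod_cast hw
  have e1 : x / w - ((y / w : ℤ) : ℝ) = (x - y) / w + ((y % w : ℤ) : ℝ) / w := by
    have h2 : (y : ℝ) = w * ((y / w : ℤ) : ℝ) + ((y % w : ℤ) : ℝ) := by
      exact_mod_cast (Int.mul_ediv_add_emod y w).symm
    field_simp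
    linarith
  rw [e1]
  refine (abs_add_le _ _).trans (add_le_add ?_ ?_)
  · rw [abs_div]
    exact (div_le_self (abs_nonneg _) hw1).trans h
  · rw [abs_div]
    rw [div_le_one (by linarith)]
    have h3 := Int.emod_nonneg y hw
    have h4 := Int.emod_lt_abs y hw
    have h5 : ((y % w : ℤ) : ℝ) ≤ |(w : ℝ)| := by exact_mod_cast h4.le
    rw [abs_of_nonneg (by exact_mod_cast h3)]
    exact h5

variable (K L : ℕ) (H a b : ℤ)

/-- the rows of `Re α_m`, `Im α_m` and of the same divided by `w` -/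
def rwR (m : ℤ) : ℕ → ℤ :=
  iRow K L 0 (fun _ => 0) (fun _ => 0) (fun n => 2 * xR H a m n) (fun n => 2 * xI b m n)
    (fun n => xI b m n) (fun n => - xR H a m n)
def rwI (m : ℤ) : ℕ → ℤ :=
  iRow K L 0 (fun _ => 0) (fun _ => 0) (fun n => -(2 * xI b m n)) (fun n => 2 * xR H a m n)
    (fun n => xR H a m n) (fun n => xI b m n)
def rwRw (m w : ℤ) : ℕ → ℤ :=
  iRow K L 0 (fun _ => 0) (fun _ => 0) (fun n => 2 * xR H a m n / w) (fun n => 2 * xI b m n / w)
    (fun n => xI b m n / w) (fun n => - xR H a m n / w)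
def rwIw (m w : ℤ) : ℕ → ℤ :=
  iRow K L 0 (fun _ => 0) (fun _ => 0) (fun n => -(2 * xI b m n) / w) (fun n => 2 * xR H a m n / w)
    (fun n => xR H a m n / w) (fun n => xI b m n / w)

variable {K L H a b}

theorem alA_sum (P : Par) {K L : ℕ} (v : ℕ → ℝ) (m : ℤ) :
    alA P (pV K L v) (rV K L v) m = ∑ n ∈ Icc (-((K + L : ℕ) : ℤ)) ((K + L : ℕ) : ℤ),
      (pV K L v n * (starRingEnd ℂ) (kA P.eta m n) + rV K L v n * (Complex.I / 2 * (starRingEnd ℂ) (kA P.eta m n))) := by
  unfold alA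
  rw [sum_kA (N := K + L) P.eta (pV K L v) m (Sup.mono (by omega) (hV_sup _ _ _)),
    sum_kA (N := K + L) P.eta (rV K L v) m (Sup.mono (by omega) (hV_sup _ _ _)), mul_sum, ← sum_add_distrib]
  refine sum_congr rfl fun n _ => ?_
  ring

/-- a general row of `Re (u (wm p + g i/2 wm r))` -/
theorem row_gen (P : Par) {K L : ℕ} (hK : ¬ Even K) (hL : Even L) (H : ℤ) (m : ℤ) {x y : ℂ} {c0 : ℝ} {c : ℤ} {e : ℝ}
    (he : 0 ≤ e)
    {PR PI RR RI : ℤ → ℤ} (hc : |((2 * H : ℤ) : ℝ) * c0 - c| ≤ 2 * e)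
    (h1 : ∀ n, |((2 * H : ℤ) : ℝ) * ((starRingEnd ℂ) x * kA P.eta m n).re - PR n| ≤ e / 2)
    (h2 : ∀ n, |((2 * H : ℤ) : ℝ) * ((starRingEnd ℂ) x * kA P.eta m n).im - PI n| ≤ e / 2)
    (h3 : ∀ n, |((2 * H : ℤ) : ℝ) * ((starRingEnd ℂ) y * kA P.eta m n).re - RR n| ≤ e / 2)
    (h4 : ∀ n, |((2 * H : ℤ) : ℝ) * ((starRingEnd ℂ) y * kA P.eta m n).im - RI n| ≤ e / 2) :
    LR (nt K L) ((2 * H : ℤ) : ℝ) (fun v => c0 + (x * wm P.eta (pV K L v) m + y * wm P.eta (rV K L v) m).re)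
      (iRow K L c (fun _ => 0) (fun _ => 0) PR PI RR RI) (2 * e) := by
  have := LR_row (N := K + L) hK hL (by omega) (by omega) (q := ((2 * H : ℤ) : ℝ)) (c0 := c0) (S := fun _ => 0)
    (P := fun n => (starRingEnd ℂ) x * kA P.eta m n) (R := fun n => (starRingEnd ℂ) y * kA P.eta m n) (c := c)
    (SR := fun _ => 0) (SI := fun _ => 0) (PR := PR) (PI := PI) (RR := RR) (RI := RI) he hc
    (fun n _ => by
      have : ci 0 0 = 0 := by unfold ci; simp
      rw [this]
      simp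
      linarith)
    (fun n _ => by
      have := ci_le (z := (((2 * H : ℤ) : ℝ) : ℂ) * ((starRingEnd ℂ) x * kA P.eta m n)) (x := PR n) (y := PI n)
        (e := e / 2) (f := e / 2) (by rw [Complex.re_ofReal_mul]; exact h1 n) (by rw [Complex.im_ofReal_mul]; exact h2 n)
      linarith)
    (fun n _ => by
      have := ci_le (z := (((2 * H : ℤ) : ℝ) : ℂ) * ((starRingEnd ℂ) y * kA P.eta m n)) (x := RR n) (y := RI n)
        (e := e / 2) (f := e / 2) (by rw [Complex.re_ofReal_mul]; exact h3 n) (by rw [Complex.im_ofReal_mul]; exact h4 n)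
      linarith)
  refine LR.congr this (fun v _ => ?_) (fun i _ => rfl)
  unfold row3
  congr 2
  rw [sum_kA (N := K + L) P.eta (pV K L v) m (Sup.mono (by omega) (hV_sup _ _ _)),
    sum_kA (N := K + L) P.eta (rV K L v) m (Sup.mono (by omega) (hV_sup _ _ _)), mul_sum, mul_sum, ← sum_add_distrib]
  refine sum_congr rfl fun n _ => ?_
  rw [map_mul, map_mul, Complex.conj_conj, Complex.conj_conj, map_zero, mul_zero, zero_add]
  ring

/-! ### the four parts of `u κ` -/

section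

variable {η : ℂ}

theorem Eta.a1 (h : Eta η H a b) (m n : ℤ) : |((2 * H : ℤ) : ℝ) * (kA η m n).re - ((2 * xR H a m n : ℤ) : ℝ)| ≤ 1 := by
  have := h.kre m n
  rw [abs_le] at this ⊢
  push_cast
  constructor <;> linarith

theorem Eta.a2 (h : Eta η H a b) (m n : ℤ) : |((2 * H : ℤ) : ℝ) * (kA η m n).im - ((2 * xI b m n : ℤ) : ℝ)| ≤ 1 := by
  have := h.kim m n
  rw [abs_le] at this ⊢
  push_cast
  constructor <;> linarith

theorem ab_neg {x e : ℝ} {y : ℤ} (h : |x - y| ≤ e) : |-x - ((-y : ℤ) : ℝ)| ≤ e := by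
  rw [← abs_neg]
  push_cast
  rw [show -(-x - -(y : ℝ)) = x - y by ring]
  exact h

theorem ab_half {x e : ℝ} {y : ℤ} (h : |x - ((2 * y : ℤ) : ℝ)| ≤ e) : |x / 2 - (y : ℝ)| ≤ e := by
  push_cast at h
  rw [abs_le] at h ⊢
  constructor <;> linarith

end

theorem conj_I2 : (starRingEnd ℂ) (Complex.I / 2) = -(Complex.I / 2) := by
  rw [map_div₀, Complex.conj_I, map_ofNat, neg_div]

theorem I2_re (z : ℂ) : (-(Complex.I / 2) * z).re = z.im / 2 := by
  have : -(Complex.I / 2) * z = ((1 / 2 : ℝ) : ℂ) * (-Complex.I * z) := by push_cast; ring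
  rw [this, Complex.re_ofReal_mul]
  simp [Complex.mul_re]
  ring

theorem I2_im (z : ℂ) : (-(Complex.I / 2) * z).im = -z.re / 2 := by
  have : -(Complex.I / 2) * z = ((1 / 2 : ℝ) : ℂ) * (-Complex.I * z) := by push_cast; ring
  rw [this, Complex.im_ofReal_mul]
  simp [Complex.mul_im]
  ring

/-- the rows of `α` -/
theorem lr_re {P : Par} (hK : ¬ Even K) (hL : Even L) (h : Eta P.eta H a b) (m : ℤ) :
    LR (nt K L) ((2 * H : ℤ) : ℝ) (fun v => (alA P (pV K L v) (rV K L v) m).re) (rwR K L H a b m) 4 := by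
  have := row_gen P hK hL H m (x := 1) (y := Complex.I / 2) (c0 := 0) (c := 0) (e := 2) (by norm_num)
    (PR := fun n => 2 * xR H a m n) (PI := fun n => 2 * xI b m n) (RR := fun n => xI b m n) (RI := fun n => - xR H a m n)
    (by simp)
    (fun n => by
      rw [map_one, one_mul]
      have := h.a1 m n
      norm_num at this ⊢
      exact this)
    (fun n => by
      rw [map_one, one_mul]
      have := h.a2 m n
      norm_num at this ⊢
      exact this)
    (fun n => by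
      have e : ((starRingEnd ℂ) (Complex.I / 2) * kA P.eta m n).re = (kA P.eta m n).im / 2 := by
        rw [conj_I2, I2_re]
      rw [e, ← mul_div_assoc]
      have := ab_half (h.a2 m n)
      linarith)
    (fun n => by
      have e : ((starRingEnd ℂ) (Complex.I / 2) * kA P.eta m n).im = - (kA P.eta m n).re / 2 := by
        rw [conj_I2, I2_im]
      have h1 := ab_neg (ab_half (h.a1 m n))
      have h2 : ((2 * H : ℤ) : ℝ) * (-(kA P.eta m n).re / 2) = -(((2 * H : ℤ) : ℝ) * (kA P.eta m n).re / 2) := by ring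
      rw [e, h2]
      linarith)
  refine (LR.congr this (fun v _ => ?_) (fun i _ => rfl)).mono (by norm_num)
  unfold alA
  rw [one_mul, zero_add]

theorem lr_im {P : Par} (hK : ¬ Even K) (hL : Even L) (h : Eta P.eta H a b) (m : ℤ) :
    LR (nt K L) ((2 * H : ℤ) : ℝ) (fun v => (alA P (pV K L v) (rV K L v) m).im) (rwI K L H a b m) 4 := by
  have := row_gen P hK hL H m (x := -Complex.I) (y := 1 / 2) (c0 := 0) (c := 0) (e := 2) (by norm_num)
    (PR := fun n => -(2 * xI b m n)) (PI := fun n => 2 * xR H a m n) (RR := fun n => xR H a m n)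
    (RI := fun n => xI b m n)
    (by simp)
    (fun n => by
      have e : ((starRingEnd ℂ) (-Complex.I) * kA P.eta m n).re = -(kA P.eta m n).im := by
        simp [Complex.mul_re]
      have := ab_neg (h.a2 m n)
      rw [e, mul_neg]
      linarith)
    (fun n => by
      have e : ((starRingEnd ℂ) (-Complex.I) * kA P.eta m n).im = (kA P.eta m n).re := by
        simp [Complex.mul_im]
      have := h.a1 m n
      rw [e]
      linarith)
    (fun n => by
      have e : ((starRingEnd ℂ) (1 / 2) * kA P.eta m n).re = (kA P.eta m n).re / 2 := by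
        simp [Complex.mul_re]
        ring
      rw [e, ← mul_div_assoc]
      have := ab_half (h.a1 m n)
      linarith)
    (fun n => by
      have e : ((starRingEnd ℂ) (1 / 2) * kA P.eta m n).im = (kA P.eta m n).im / 2 := by
        simp [Complex.mul_im]
        ring
      rw [e, ← mul_div_assoc]
      have := ab_half (h.a2 m n)
      linarith)
  refine (LR.congr this (fun v _ => ?_) (fun i _ => rfl)).mono (by norm_num)
  unfold alA
  simp [Complex.mul_re, Complex.mul_im]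

theorem div_mul_re (w : ℤ) (u z : ℂ) : ((starRingEnd ℂ) (u / w) * z).re = ((starRingEnd ℂ) u * z).re / w := by
  have : (starRingEnd ℂ) (u / w) * z = ((1 / w : ℝ) : ℂ) * ((starRingEnd ℂ) u * z) := by
    rw [map_div₀, map_intCast]; push_cast; ring
  rw [this, Complex.re_ofReal_mul]
  ring

theorem div_mul_im (w : ℤ) (u z : ℂ) : ((starRingEnd ℂ) (u / w) * z).im = ((starRingEnd ℂ) u * z).im / w := by
  have : (starRingEnd ℂ) (u / w) * z = ((1 / w : ℝ) : ℂ) * ((starRingEnd ℂ) u * z) := by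
    rw [map_div₀, map_intCast]; push_cast; ring
  rw [this, Complex.im_ofReal_mul]
  ring

/-- a row divided by an integer -/
theorem row_div (P : Par) {K L : ℕ} (hK : ¬ Even K) (hL : Even L) (H : ℤ) (m w : ℤ) (hw : w ≠ 0) {x y : ℂ}
    {PR PI RR RI : ℤ → ℤ} {t : ℝ} (ht : 0 ≤ t)
    (h1 : ∀ n, |((2 * H : ℤ) : ℝ) * ((starRingEnd ℂ) x * kA P.eta m n).re - PR n| ≤ t)
    (h2 : ∀ n, |((2 * H : ℤ) : ℝ) * ((starRingEnd ℂ) x * kA P.eta m n).im - PI n| ≤ t)
    (h3 : ∀ n, |((2 * H : ℤ) : ℝ) * ((starRingEnd ℂ) y * kA P.eta m n).re - RR n| ≤ t)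
    (h4 : ∀ n, |((2 * H : ℤ) : ℝ) * ((starRingEnd ℂ) y * kA P.eta m n).im - RI n| ≤ t) :
    LR (nt K L) ((2 * H : ℤ) : ℝ) (fun v => (x * wm P.eta (pV K L v) m + y * wm P.eta (rV K L v) m).re / w)
      (iRow K L 0 (fun _ => 0) (fun _ => 0) (fun n => PR n / w) (fun n => PI n / w) (fun n => RR n / w)
        (fun n => RI n / w)) (4 * (t + 1)) := by
  have := row_gen P hK hL H m (x := x / w) (y := y / w) (c0 := 0) (c := 0) (e := 2 * (t + 1)) (by linarith)
    (PR := fun n => PR n / w) (PI := fun n => PI n / w) (RR := fun n => RR n / w) (RI := fun n => RI n / w)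
    (by simp; linarith)
    (fun n => by rw [div_mul_re, ← mul_div_assoc]; exact (dv (h1 n) hw).trans (by linarith))
    (fun n => by rw [div_mul_im, ← mul_div_assoc]; exact (dv (h2 n) hw).trans (by linarith))
    (fun n => by rw [div_mul_re, ← mul_div_assoc]; exact (dv (h3 n) hw).trans (by linarith))
    (fun n => by rw [div_mul_im, ← mul_div_assoc]; exact (dv (h4 n) hw).trans (by linarith))
  refine (LR.congr this (fun v _ => ?_) (fun i _ => rfl)).mono (by linarith)
  rw [zero_add]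
  have e : x / (w : ℂ) * wm P.eta (pV K L v) m + y / (w : ℂ) * wm P.eta (rV K L v) m =
      ((1 / w : ℝ) : ℂ) * (x * wm P.eta (pV K L v) m + y * wm P.eta (rV K L v) m) := by push_cast; ring
  rw [e, Complex.re_ofReal_mul]
  ring

section

variable {P : Par} (h : Eta P.eta H a b) (m n : ℤ)
include h

/-! ### the parts for `x = 1, -i, -1, i/2, 1/2` -/

theorem p1r : |((2 * H : ℤ) : ℝ) * ((starRingEnd ℂ) 1 * kA P.eta m n).re - ((2 * xR H a m n : ℤ) : ℝ)| ≤ 1 := by
  rw [map_one, one_mul]; exact h.a1 m n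
theorem p1i : |((2 * H : ℤ) : ℝ) * ((starRingEnd ℂ) 1 * kA P.eta m n).im - ((2 * xI b m n : ℤ) : ℝ)| ≤ 1 := by
  rw [map_one, one_mul]; exact h.a2 m n
theorem pmr : |((2 * H : ℤ) : ℝ) * ((starRingEnd ℂ) (-1) * kA P.eta m n).re - ((-(2 * xR H a m n) : ℤ) : ℝ)| ≤ 1 := by
  have e : ((starRingEnd ℂ) (-1) * kA P.eta m n).re = -(kA P.eta m n).re := by
    rw [map_neg, map_one, neg_one_mul, Complex.neg_re]
  rw [e, mul_neg]; exact ab_neg (h.a1 m n)
theorem pmi : |((2 * H : ℤ) : ℝ) * ((starRingEnd ℂ) (-1) * kA P.eta m n).im - ((-(2 * xI b m n) : ℤ) : ℝ)| ≤ 1 := by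
  have e : ((starRingEnd ℂ) (-1) * kA P.eta m n).im = -(kA P.eta m n).im := by
    rw [map_neg, map_one, neg_one_mul, Complex.neg_im]
  rw [e, mul_neg]; exact ab_neg (h.a2 m n)
theorem pir : |((2 * H : ℤ) : ℝ) * ((starRingEnd ℂ) (-Complex.I) * kA P.eta m n).re - ((-(2 * xI b m n) : ℤ) : ℝ)| ≤ 1 := by
  have e : ((starRingEnd ℂ) (-Complex.I) * kA P.eta m n).re = -(kA P.eta m n).im := by
    simp [Complex.mul_re]
  rw [e, mul_neg]; exact ab_neg (h.a2 m n)
theorem pii : |((2 * H : ℤ) : ℝ) * ((starRingEnd ℂ) (-Complex.I) * kA P.eta m n).im - ((2 * xR H a m n : ℤ) : ℝ)| ≤ 1 := by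
  have e : ((starRingEnd ℂ) (-Complex.I) * kA P.eta m n).im = (kA P.eta m n).re := by
    simp [Complex.mul_im]
  rw [e]; exact h.a1 m n
theorem phr : |((2 * H : ℤ) : ℝ) * ((starRingEnd ℂ) (Complex.I / 2) * kA P.eta m n).re - (xI b m n : ℝ)| ≤ 1 := by
  rw [conj_I2, I2_re, ← mul_div_assoc]; exact ab_half (h.a2 m n)
theorem phi : |((2 * H : ℤ) : ℝ) * ((starRingEnd ℂ) (Complex.I / 2) * kA P.eta m n).im - ((-xR H a m n : ℤ) : ℝ)| ≤ 1 := by
  have h2 : ((2 * H : ℤ) : ℝ) * (-(kA P.eta m n).re / 2) = -(((2 * H : ℤ) : ℝ) * (kA P.eta m n).re / 2) := by ring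
  rw [conj_I2, I2_im, h2]
  exact ab_neg (ab_half (h.a1 m n))
theorem pgr : |((2 * H : ℤ) : ℝ) * ((starRingEnd ℂ) (1 / 2) * kA P.eta m n).re - (xR H a m n : ℝ)| ≤ 1 := by
  have e : ((starRingEnd ℂ) (1 / 2) * kA P.eta m n).re = (kA P.eta m n).re / 2 := by
    simp [Complex.mul_re]
    ring
  rw [e, ← mul_div_assoc]; exact ab_half (h.a1 m n)
theorem pgi : |((2 * H : ℤ) : ℝ) * ((starRingEnd ℂ) (1 / 2) * kA P.eta m n).im - (xI b m n : ℝ)| ≤ 1 := by
  have e : ((starRingEnd ℂ) (1 / 2) * kA P.eta m n).im = (kA P.eta m n).im / 2 := by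
    simp [Complex.mul_im]
    ring
  rw [e, ← mul_div_assoc]; exact ab_half (h.a2 m n)

end

theorem lr_rew {P : Par} (hK : ¬ Even K) (hL : Even L) (h : Eta P.eta H a b) (m w : ℤ) (hw : w ≠ 0) :
    LR (nt K L) ((2 * H : ℤ) : ℝ) (fun v => (alA P (pV K L v) (rV K L v) m).re / w) (rwRw K L H a b m w) 8 := by
  refine (LR.congr (row_div P hK hL H m w hw (x := 1) (y := Complex.I / 2) zero_le_one (p1r h m) (p1i h m) (phr h m)
    (phi h m)) (fun v _ => ?_) (fun i _ => rfl)).mono (by norm_num)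
  unfold alA
  rw [one_mul]

theorem lr_imw {P : Par} (hK : ¬ Even K) (hL : Even L) (h : Eta P.eta H a b) (m w : ℤ) (hw : w ≠ 0) :
    LR (nt K L) ((2 * H : ℤ) : ℝ) (fun v => (alA P (pV K L v) (rV K L v) m).im / w) (rwIw K L H a b m w) 8 := by
  refine (LR.congr (row_div P hK hL H m w hw (x := -Complex.I) (y := 1 / 2) zero_le_one (pir h m) (pii h m) (pgr h m)
    (pgi h m)) (fun v _ => ?_) (fun i _ => rfl)).mono (by norm_num)
  unfold alA
  congr 1
  simp [Complex.mul_re, Complex.mul_im]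

/-! ### `σ` -/

variable (K L H a b) in
/-- the rows of `Re σ`, `Im σ` and `2/3` of them -/
def rwS : ℕ → ℤ :=
  iRow K L 0 (fun _ => 0) (fun _ => 0) (fun n => 2 * xR H a 2 n) (fun n => 2 * xI b 2 n)
    (fun n => -(2 * xI b 2 n)) (fun n => 2 * xR H a 2 n)
variable (K L H a b) in
def rwT : ℕ → ℤ :=
  iRow K L 0 (fun _ => 0) (fun _ => 0) (fun n => -(2 * xI b 2 n)) (fun n => 2 * xR H a 2 n)
    (fun n => -(2 * xR H a 2 n)) (fun n => -(2 * xI b 2 n))
variable (K L H a b) in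
def rwSw : ℕ → ℤ :=
  iRow K L 0 (fun _ => 0) (fun _ => 0) (fun n => 2 * (2 * xR H a 2 n) / 3) (fun n => 2 * (2 * xI b 2 n) / 3)
    (fun n => 2 * -(2 * xI b 2 n) / 3) (fun n => 2 * (2 * xR H a 2 n) / 3)
variable (K L H a b) in
def rwTw : ℕ → ℤ :=
  iRow K L 0 (fun _ => 0) (fun _ => 0) (fun n => 2 * -(2 * xI b 2 n) / 3) (fun n => 2 * (2 * xR H a 2 n) / 3)
    (fun n => 2 * -(2 * xR H a 2 n) / 3) (fun n => 2 * -(2 * xI b 2 n) / 3)

theorem dbl {x : ℝ} {u z : ℂ} {y : ℤ} (h : |x * ((starRingEnd ℂ) u * z).re - y| ≤ 1) :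
    |x * ((starRingEnd ℂ) (2 * u) * z).re - ((2 * y : ℤ) : ℝ)| ≤ 2 := by
  have e : (starRingEnd ℂ) (2 * u) * z = ((2 : ℝ) : ℂ) * ((starRingEnd ℂ) u * z) := by
    rw [map_mul, map_ofNat]; push_cast; ring
  rw [e, Complex.re_ofReal_mul]
  rw [abs_le] at h ⊢
  push_cast
  constructor <;> linarith

theorem dbl' {x : ℝ} {u z : ℂ} {y : ℤ} (h : |x * ((starRingEnd ℂ) u * z).im - y| ≤ 1) :
    |x * ((starRingEnd ℂ) (2 * u) * z).im - ((2 * y : ℤ) : ℝ)| ≤ 2 := by
  have e : (starRingEnd ℂ) (2 * u) * z = ((2 : ℝ) : ℂ) * ((starRingEnd ℂ) u * z) := by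
    rw [map_mul, map_ofNat]; push_cast; ring
  rw [e, Complex.im_ofReal_mul]
  rw [abs_le] at h ⊢
  push_cast
  constructor <;> linarith

theorem lr_s {P : Par} (hK : ¬ Even K) (hL : Even L) (h : Eta P.eta H a b) :
    LR (nt K L) ((2 * H : ℤ) : ℝ) (fun v => (sgA P (pV K L v) (rV K L v)).re) (rwS K L H a b) 4 := by
  have := row_gen P hK hL H 2 (x := 1) (y := -Complex.I) (c0 := 0) (c := 0) (e := 2) (by norm_num)
    (by simp) (fun n => (p1r h 2 n).trans (by norm_num)) (fun n => (p1i h 2 n).trans (by norm_num))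
    (fun n => (pir h 2 n).trans (by norm_num)) (fun n => (pii h 2 n).trans (by norm_num))
  refine (LR.congr this (fun v _ => ?_) (fun i _ => rfl)).mono (by norm_num)
  unfold sgA
  rw [one_mul, zero_add]
  congr 1
  ring

theorem lr_t {P : Par} (hK : ¬ Even K) (hL : Even L) (h : Eta P.eta H a b) :
    LR (nt K L) ((2 * H : ℤ) : ℝ) (fun v => (sgA P (pV K L v) (rV K L v)).im) (rwT K L H a b) 4 := by
  have := row_gen P hK hL H 2 (x := -Complex.I) (y := -1) (c0 := 0) (c := 0) (e := 2) (by norm_num)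
    (by simp) (fun n => (pir h 2 n).trans (by norm_num)) (fun n => (pii h 2 n).trans (by norm_num))
    (fun n => (pmr h 2 n).trans (by norm_num)) (fun n => (pmi h 2 n).trans (by norm_num))
  refine (LR.congr this (fun v _ => ?_) (fun i _ => rfl)).mono (by norm_num)
  unfold sgA
  simp [Complex.mul_re, Complex.mul_im]
  ring

theorem lr_sw {P : Par} (hK : ¬ Even K) (hL : Even L) (h : Eta P.eta H a b) :
    LR (nt K L) ((2 * H : ℤ) : ℝ) (fun v => 2 / 3 * (sgA P (pV K L v) (rV K L v)).re) (rwSw K L H a b) 12 := by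
  have := row_div P hK hL H 2 3 (by norm_num) (x := 2 * 1) (y := 2 * -Complex.I) (t := 2) (by norm_num)
    (fun n => dbl (p1r h 2 n)) (fun n => dbl' (p1i h 2 n)) (fun n => dbl (pir h 2 n)) (fun n => dbl' (pii h 2 n))
  refine (LR.congr this (fun v _ => ?_) (fun i _ => rfl)).mono (by norm_num)
  unfold sgA
  have e : 2 * 1 * wm P.eta (pV K L v) 2 + 2 * -Complex.I * wm P.eta (rV K L v) 2 =
      ((2 : ℝ) : ℂ) * (wm P.eta (pV K L v) 2 - Complex.I * wm P.eta (rV K L v) 2) := by push_cast; ring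
  rw [e, Complex.re_ofReal_mul]
  push_cast
  ring

theorem lr_tw {P : Par} (hK : ¬ Even K) (hL : Even L) (h : Eta P.eta H a b) :
    LR (nt K L) ((2 * H : ℤ) : ℝ) (fun v => 2 / 3 * (sgA P (pV K L v) (rV K L v)).im) (rwTw K L H a b) 12 := by
  have := row_div P hK hL H 2 3 (by norm_num) (x := 2 * -Complex.I) (y := 2 * -1) (t := 2) (by norm_num)
    (fun n => dbl (pir h 2 n)) (fun n => dbl' (pii h 2 n)) (fun n => dbl (pmr h 2 n)) (fun n => dbl' (pmi h 2 n))
  refine (LR.congr this (fun v _ => ?_) (fun i _ => rfl)).mono (by norm_num)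
  unfold sgA
  have e : 2 * -Complex.I * wm P.eta (pV K L v) 2 + 2 * -1 * wm P.eta (rV K L v) 2 =
      ((2 : ℝ) : ℂ) * (-Complex.I * wm P.eta (pV K L v) 2 - wm P.eta (rV K L v) 2) := by push_cast; ring
  have e2 : (wm P.eta (pV K L v) 2 - Complex.I * wm P.eta (rV K L v) 2).im =
      (-Complex.I * wm P.eta (pV K L v) 2 - wm P.eta (rV K L v) 2).re := by
    simp [Complex.mul_re, Complex.mul_im]
  rw [e, Complex.re_ofReal_mul, e2]
  push_cast
  ring

/-! ### `H₀` and the linear part -/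

theorem H0A_eq {P : Par} (ha : fc P.a0 0 = 0) (p r : ℤ → ℂ) : H0A P p r = (alA P p r 0).re := by
  unfold H0A dlA
  rw [ha, if_neg (by norm_num), one_mul, sub_zero]

/-- the row of `H₀` plus a constant -/
theorem lr_h {P : Par} (hK : ¬ Even K) (hL : Even L) (h : Eta P.eta H a b) (ha : fc P.a0 0 = 0) {c : ℤ} {k : ℝ}
    (hc : |((2 * H : ℤ) : ℝ) * k - c| ≤ 4) :
    LR (nt K L) ((2 * H : ℤ) : ℝ) (fun v => H0A P (pV K L v) (rV K L v) + k)
      (iRow K L c (fun _ => 0) (fun _ => 0) (fun n => 2 * xR H a 0 n) (fun n => 2 * xI b 0 n)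
        (fun n => xI b 0 n) (fun n => - xR H a 0 n)) 4 := by
  have := row_gen P hK hL H 0 (x := 1) (y := Complex.I / 2) (c0 := k) (c := c) (e := 2) (by norm_num)
    (by linarith) (fun n => (p1r h 0 n).trans (by norm_num)) (fun n => (p1i h 0 n).trans (by norm_num))
    (fun n => (phr h 0 n).trans (by norm_num)) (fun n => (phi h 0 n).trans (by norm_num))
  refine (LR.congr this (fun v _ => ?_) (fun i _ => rfl)).mono (by norm_num)
  rw [H0A_eq ha]
  unfold alA
  rw [one_mul]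
  ring

/-- the linear part is `2 H₀` -/
theorem linO_eq {P : Par} (ha : fc P.a0 0 = 0) {N : ℕ} {p r s : ℤ → ℂ} (A : Arr N p r s) :
    linO P p r = 2 * H0A P p r - 8 - 2 * (‖P.eta‖ ^ 2 / 3) := by
  have p0 : (p 0).im = 0 := by
    have := A.hp 0
    rw [neg_zero] at this
    exact Complex.conj_eq_iff_im.mp this.symm
  have r0 : (r 0).im = 0 := by
    have := A.hr 0
    rw [neg_zero] at this
    exact Complex.conj_eq_iff_im.mp this.symm
  have p2 := A.hp 2
  have p4 := A.hp 4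
  have r2 := A.hr 2
  have r4 := A.hr 4
  rw [H0A_eq ha]
  unfold linO sgA alA wm
  norm_num
  rw [p2, p4, r2, r4]
  simp only [Complex.conj_re, Complex.conj_im, p0, r0]
  ring

end Helper38.SH
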